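import Pool.Agent.SY3.GenSound
import Pool.Agent.SY3.FastDef

/-!
# A faster form of `gen9` and `valid9`: soundness
-/

set_option autoImplicit false

namespace SY3

open BS9 N8S
open SY3F (by8 fl rn rm pk keyf xkeyf bidf wlf slf lt5f lt6f g1f g2f pref g5f g6f lkf tKT tXT tBT
  tR1 tR2 tST tPT)

theorem fl_eq {β : Type} (n : ℕ) (k : ℕ → β) : fl n k = k n := by cases n <;> rfl

theorem f_tb : SY3F.tb = N8S.tb := rfl
theorem f_bn : SY3F.bn = N8S.bn := rfl
theorem f_pa : SY3F.pa = pa := rfl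
theorem f_tm : SY3F.tm = tm := rfl
theorem f_mg : SY3F.mg = mg := rfl
theorem f_g7 : SY3F.g7 = g7 := rfl
theorem f_g1 : SY3F.g1f = g1 := rfl

/-! ### The tables -/

theorem hKT : ∀ b < 126, ∀ k < 5, by8 tKT (Nat.add (Nat.mul 5 b) k) = xid (T5.getD b 0) k := by
  decide +kernel

theorem hXT : ∀ a < 84, ∀ l < 6, ∀ k < l,
    by8 tXT (Nat.add (Nat.mul 36 a) (Nat.add (Nat.mul 6 k) l)) = xid2 (A6.getD a 0) k l := by
  decide +kernel

theorem hBT : ∀ a < 84, ∀ p < 6, by8 tBT (Nat.add (Nat.mul 6 a) p) = bid (A6.getD a 0) p := by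
  decide +kernel

def hRb : Bool :=
  (List.range 64).all fun P => (List.range 64).all fun M =>
    bif Nat.blt (rn P M) 68 then
      (List.range 6).all fun p =>
        bif Nat.blt (rm (rn P M) p) 128 then
          (Nat.beq (db P p) (oP (Nat.mod (rm (rn P M) p) 64) (N8S.tb (rm (rn P M) p) 6)) &&
          Nat.beq (db M p) (oM (Nat.mod (rm (rn P M) p) 64) (N8S.tb (rm (rn P M) p) 6)) &&
          Nat.blt (Nat.mod (rm (rn P M) p) 64) 41)
        else true
    else true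

theorem hRb_eq : hRb = true := by decide +kernel

theorem hR {P M p : ℕ} (hP : P < 64) (hM : M < 64) (hR : rn P M < 68) (hp : p < 6)
    (h : rm (rn P M) p < 128) :
    db P p = oP (Nat.mod (rm (rn P M) p) 64) (N8S.tb (rm (rn P M) p) 6) ∧
    db M p = oM (Nat.mod (rm (rn P M) p) 64) (N8S.tb (rm (rn P M) p) 6) ∧
    Nat.mod (rm (rn P M) p) 64 < 41 := by
  have e := hRb_eq
  unfold hRb at e
  have e1 := List.all_eq_true.1 e P (List.mem_range.2 hP)
  have e2 := List.all_eq_true.1 e1 M (List.mem_range.2 hM)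
  rw [show Nat.blt (rn P M) 68 = true from Nat.ble_eq_true_of_le hR, cond_true] at e2
  have e3 := List.all_eq_true.1 e2 p (List.mem_range.2 hp)
  rw [show Nat.blt (rm (rn P M) p) 128 = true from Nat.ble_eq_true_of_le h, cond_true] at e3
  rw [Bool.and_eq_true, Bool.and_eq_true] at e3
  exact ⟨Nat.eq_of_beq_eq_true e3.1.1, Nat.eq_of_beq_eq_true e3.1.2, Nat.le_of_ble_eq_true e3.2⟩

theorem hST : ∀ m < 32, ∀ r < 16, ∀ o : Bool, by8 tST m = Nat.add r (Nat.mul 64 (bn o)) →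
    oP r o = m ∧ oM r o = Nat.xor m 31 := by
  decide +kernel

theorem hPT : ∀ r < 41, ∀ o : Bool, pk r o = bt (oP r o) 0 + 16 * bt (oP r o) 1 +
    256 * bt (oP r o) 2 + 4096 * bt (oP r o) 3 + 65536 * bt (oP r o) 4 := by
  decide +kernel

theorem oM_eq (r : ℕ) (o : Bool) : oM r o = oP r (!o) := by cases o <;> rfl

/-! ### Literals -/

theorem keyf_eq {b r : ℕ} (hb : b < 126) (hr : r < 41) (s : Bool) : keyf b r s = key b r s := by
  unfold keyf key
  cases h : Nat.blt r 36 with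
  | true => rfl
  | false =>
    rw [cond_false, cond_false]
    have e : by8 tKT (Nat.add (Nat.mul 5 b) (Nat.sub r 36)) = xid (T5.getD b 0) (r - 36) :=
      hKT b hb (r - 36) (by omega)
    rw [e]; rfl

theorem xkeyf_eq {a k l : ℕ} (ha : a < 84) (hkl : k < l) (hl : l < 6) (s : Bool) :
    xkeyf a k l s = xkey a k l s := by
  unfold xkeyf xkey
  rw [hXT a ha l hl k hkl]; rfl

theorem wlf_eq {b r : ℕ} (hb : b < 126) (hr : r < 41) (o s : Bool) : wlf b r o s = wl b r o s := by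
  unfold wlf wl; rw [keyf_eq hb hr]

theorem slf_eq {b r : ℕ} (hb : b < 126) (hr : r < 41) (o s : Bool) : slf b r o s = sl b r o s := by
  unfold slf sl; rw [keyf_eq hb hr]

theorem lt5f_eq {b r : ℕ} (hb : b < 126) (hr : r < 41) (st o s : Bool) :
    lt5f st b r o s = lt5 st b r o s := by
  unfold lt5f lt5; rw [wlf_eq hb hr, slf_eq hb hr]

theorem lt6f_eq {a k l : ℕ} (ha : a < 84) (hkl : k < l) (hl : l < 6) (st s : Bool) :
    lt6f st a k l s = lt6 st a k l s := by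
  unfold lt6f lt6; rw [xkeyf_eq ha hkl hl, xkeyf_eq ha hkl hl]

/-! ### Clauses -/

theorem g2f_eq {b i j : ℕ} (hb : b < 126) (hij : i < j) (hj : j < 5) : g2f b i j = g2 b i j := by
  have e : ∀ k < 5, ∀ o s : Bool, wlf b (Nat.add 36 k) o s = wl b (36 + k) o s :=
    fun k hk o s => wlf_eq hb (show 36 + k < 41 by omega) o s
  unfold g2f g2
  rw [e i (by omega), e i (by omega), e j hj, e j hj]

theorem pref_eq {b : ℕ} (hb : b < 126) (C : ℕ) : pref b C = pre b C := by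
  unfold pref pre
  rw [f_tb, wlf_eq hb (by norm_num), wlf_eq hb (by norm_num), wlf_eq hb (by norm_num),
    wlf_eq hb (by norm_num), wlf_eq hb (by norm_num)]

theorem g5f_eq {b r1 r2 r3 t : ℕ} {s1 s2 s3 sg : Bool} (hb : b < 126) (h1 : r1 < 41)
    (h2 : r2 < 41) (h3 : r3 < 41) : g5f b r1 s1 r2 s2 r3 s3 t sg = g5 b r1 s1 r2 s2 r3 s3 t sg := by
  unfold g5f g5
  rw [lt5f_eq hb h1, lt5f_eq hb h2, lt5f_eq hb h3]

theorem g6f_eq {a p q r rp rq rr t : ℕ} {op oq oR s1 s2 s3 sg : Bool} (ha : a < 84) (hpq : p < q)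
    (hqr : q < r) (hr : r < 6) (h1 : rp < 41) (h2 : rq < 41) (h3 : rr < 41) :
    g6f a p q r rp rq rr op oq oR s1 s2 s3 t sg = g6 a p q r rp rq rr op oq oR s1 s2 s3 t sg := by
  have e : ∀ k < 6, bidf a k = bid (A6.getD a 0) k := fun k hk => hBT a ha k hk
  have l : ∀ k < 6, bid (A6.getD a 0) k < 126 := fun k hk => (T5_bid a ha k hk).1
  unfold g6f g6
  simp only [fl_eq]
  rw [e p (by omega), e q (by omega), e r hr, lt6f_eq ha hqr hr, lt6f_eq ha (hpq.trans hqr) hr,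
    lt6f_eq ha hpq (hqr.trans hr), lt5f_eq (l p (by omega)) h1, lt5f_eq (l q (by omega)) h2,
    lt5f_eq (l r hr) h3]

theorem bt_le (n k : ℕ) : bt n k ≤ 1 := by
  unfold bt; cases tb n k <;> decide

theorem mgbt_le (x n k : ℕ) : mg x * bt n k ≤ 2 := by
  have h := bt_le n k
  unfold mg
  cases tb x 0
  · rw [cond_false]; omega
  · rw [cond_true]; omega

/-- digits in base 16 -/
theorem dig16 {A B : ℕ → ℕ} (hA : ∀ k, A k ≤ 6) (hB : ∀ k, B k ≤ 6)
    (h : A 0 + 16 * A 1 + 256 * A 2 + 4096 * A 3 + 65536 * A 4 =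
      B 0 + 16 * B 1 + 256 * B 2 + 4096 * B 3 + 65536 * B 4) : ∀ k < 5, A k = B k := by
  have a0 := hA 0; have a1 := hA 1; have a2 := hA 2; have a3 := hA 3; have a4 := hA 4
  have b0 := hB 0; have b1 := hB 1; have b2 := hB 2; have b3 := hB 3; have b4 := hB 4
  intro k hk
  interval_cases k <;> omega

theorem lkf_sound {r1 x1 r2 x2 r3 x3 : ℕ} (h1 : r1 < 41) (h2 : r2 < 41) (h3 : r3 < 41)
    (h : lkf r1 x1 r2 x2 r3 x3 = true) : ∀ k < 5, lk r1 x1 r2 x2 r3 x3 k = true := by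
  have h' := Nat.eq_of_beq_eq_true h
  change mg x1 * pk r1 (tb x1 1) + (mg x2 * pk r2 (tb x2 1) + mg x3 * pk r3 (tb x3 1)) =
    mg x1 * pk r1 (!tb x1 1) + (mg x2 * pk r2 (!tb x2 1) + mg x3 * pk r3 (!tb x3 1)) at h'
  rw [hPT r1 h1, hPT r2 h2, hPT r3 h3, hPT r1 h1, hPT r2 h2, hPT r3 h3] at h'
  have key := dig16
    (A := fun k => mg x1 * bt (oP r1 (tb x1 1)) k + mg x2 * bt (oP r2 (tb x2 1)) k +
      mg x3 * bt (oP r3 (tb x3 1)) k)
    (B := fun k => mg x1 * bt (oP r1 (!tb x1 1)) k + mg x2 * bt (oP r2 (!tb x2 1)) k +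
      mg x3 * bt (oP r3 (!tb x3 1)) k)
    (fun k => by
      have := mgbt_le x1 (oP r1 (tb x1 1)) k
      have := mgbt_le x2 (oP r2 (tb x2 1)) k
      have := mgbt_le x3 (oP r3 (tb x3 1)) k
      show _ + _ + _ ≤ 6; omega)
    (fun k => by
      have := mgbt_le x1 (oP r1 (!tb x1 1)) k
      have := mgbt_le x2 (oP r2 (!tb x2 1)) k
      have := mgbt_le x3 (oP r3 (!tb x3 1)) k
      show _ + _ + _ ≤ 6; omega)
    (by linarith)
  intro k hk
  have e := key k hk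
  unfold lk
  rw [oM_eq, oM_eq, oM_eq, e]
  exact Nat.beq_refl _

theorem bd {a b : Bool} (h : (bif a then b else false) = true) : a = true ∧ b = true := by
  cases a
  · cases h
  · exact ⟨rfl, h⟩

theorem pa_lt (c k : ℕ) : pa c k < 128 := Nat.mod_lt _ (by norm_num)

theorem tm_lt {C i j : ℕ} (hC : C < 32) (hi : i < 5) (hj : j < 5) : tm C i j < 32 := by
  have h : (bif Nat.beq i j then Nat.pow 2 i else Nat.add (Nat.pow 2 i) (Nat.pow 2 j)) < 2 ^ 5 := by
    interval_cases i <;> interval_cases j <;> decide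
  exact Nat.xor_lt_two_pow (n := 5) hC h

/-- **Soundness of the clauses.** -/
theorem gen9f_sound {w : ℕ → Fin 4 → ℝ} (h : Hyp 9 w) (h9 : Sorted9 w) (c : ℕ)
    (hc : SY3F.valid9f c = true) : Sat w (SY3F.gen9f c) := by
  unfold SY3F.valid9f at hc
  unfold SY3F.gen9f
  simp only [fl_eq, f_tb, f_bn, f_pa, f_tm, f_g7, f_g1] at hc ⊢
  cases f5 : Nat.beq (Nat.mod c 8) 5 with
  | true =>
    rw [f5, cond_true] at hc
    rw [cond_true]
    obtain ⟨k1, hc⟩ := bd hc
    obtain ⟨k2, hc⟩ := bd hc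
    obtain ⟨k3, hc⟩ := bd hc
    obtain ⟨k4, hc⟩ := bd hc
    obtain ⟨k5, hc⟩ := bd hc
    obtain ⟨k6, hc⟩ := bd hc
    obtain ⟨k7, hc⟩ := bd hc
    obtain ⟨k8, hc⟩ := bd hc
    obtain ⟨k9, hc⟩ := bd hc
    obtain ⟨k10, k11⟩ := bd hc
    have e9 := Nat.eq_of_beq_eq_true k9
    have e10 := Nat.eq_of_beq_eq_true k10
    have e11 := Nat.eq_of_beq_eq_true k11
    have lr : pa c 3 < 6 := blt_lt k4
    have lq : pa c 2 < 6 := (blt_lt k3).trans lr
    have lp : pa c 1 < 6 := (blt_lt k2).trans lq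
    obtain ⟨t1, t2, t3⟩ := hR (blt_lt k5) (blt_lt k6) (blt_lt k7) lp
      (by rw [e9]; exact pa_lt c 6)
    obtain ⟨u1, u2, u3⟩ := hR (blt_lt k5) (blt_lt k6) (blt_lt k7) lq
      (by rw [e10]; exact pa_lt c 7)
    obtain ⟨v1, v2, v3⟩ := hR (blt_lt k5) (blt_lt k6) (blt_lt k7) lr
      (by rw [e11]; exact pa_lt c 8)
    rw [e9] at t1 t2 t3
    rw [e10] at u1 u2 u3
    rw [e11] at v1 v2 v3
    rw [g6f_eq (blt_lt k1) (blt_lt k2) (blt_lt k3) lr t3 u3 v3]
    exact sat6 (blt_lt k1) (blt_lt k2) (blt_lt k3) lr (blt_lt k5) (blt_lt k6) t3 u3 v3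
      (blt_lt k8) t1 t2 u1 u2 v1 v2
  | false =>
  rw [f5, cond_false] at hc
  rw [cond_false]
  cases f4 : Nat.beq (Nat.mod c 8) 4 with
  | true =>
    rw [f4, cond_true] at hc
    rw [cond_true]
    obtain ⟨k1, hc⟩ := bd hc
    obtain ⟨k2, hc⟩ := bd hc
    obtain ⟨k3, hc⟩ := bd hc
    obtain ⟨k4, hc⟩ := bd hc
    obtain ⟨k5, k6⟩ := bd hc
    rw [g5f_eq (blt_lt k1) (blt_lt k2) (blt_lt k3) (blt_lt k4)]
    exact sat5 (blt_lt k1) (blt_lt k2) (blt_lt k3) (blt_lt k4) (blt_lt k5)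
      (lkf_sound (blt_lt k2) (blt_lt k3) (blt_lt k4) k6)
  | false =>
  rw [f4, cond_false] at hc
  rw [cond_false]
  cases f3 : Nat.beq (Nat.mod c 8) 3 with
  | true =>
    rw [f3, cond_true] at hc
    rw [cond_true]
    obtain ⟨k1, hc⟩ := bd hc
    have hb := blt_lt k1
    cases i7 : Nat.beq (pa c 2) 7 with
    | true =>
      rw [i7, cond_true] at hc
      rw [cond_true, pref_eq hb]
      refine satA h lt9 le_rfl hb ?_
      cases c0 : Nat.beq (pa c 1) 0 with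
      | true => exact Or.inl (Nat.eq_of_beq_eq_true c0)
      | false => rw [c0, cond_false] at hc; exact Or.inr (Nat.eq_of_beq_eq_true hc)
    | false =>
      rw [i7, cond_false] at hc
      rw [cond_false]
      obtain ⟨k2, hc⟩ := bd hc
      obtain ⟨k3, hc⟩ := bd hc
      obtain ⟨k4, hc⟩ := bd hc
      obtain ⟨k5, hc⟩ := bd hc
      obtain ⟨k6, hc⟩ := bd hc
      obtain ⟨hP, hM⟩ := hST _ (tm_lt (blt_lt k2) (blt_lt k3) (blt_lt k4)) _ (blt_lt k5)
        (tb (pa c 5) 0) (Nat.eq_of_beq_eq_true k6)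
      have hr : pa c 4 < 41 := (blt_lt k5).trans (by norm_num)
      rw [pref_eq hb]
      cases ij : Nat.beq (pa c 2) (pa c 3) with
      | true =>
        rw [cond_true, wlf_eq hb hr]
        have e := Nat.eq_of_beq_eq_true ij
        rw [← e] at hP hM
        exact sat4 h lt9 le_rfl hb (blt_lt k3) (blt_lt k5) hP hM
      | false =>
        rw [ij, cond_false] at hc
        rw [cond_false, slf_eq hb hr]
        refine sat3 h lt9 le_rfl hb (blt_lt k3) (blt_lt k4)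
          (Nat.ne_of_beq_eq_false ij) (blt_lt k5) hP hM fun h9 => ?_
        rw [h9, Bool.xor_self] at hc
        cases hc
  | false =>
  rw [f3, cond_false] at hc
  rw [cond_false]
  cases f2 : Nat.beq (Nat.mod c 8) 2 with
  | true =>
    rw [f2, cond_true] at hc
    rw [cond_true]
    obtain ⟨k1, hc⟩ := bd hc
    obtain ⟨k2, k3⟩ := bd hc
    rw [g2f_eq (blt_lt k1) (blt_lt k2) (blt_lt k3)]
    exact sat2 h lt9 le_rfl (blt_lt k1) (blt_lt k2) (blt_lt k3)
  | false =>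
  rw [f2, cond_false] at hc
  rw [cond_false]
  cases f1 : Nat.beq (Nat.mod c 8) 1 with
  | true =>
    rw [cond_true]
    exact sat1 w _
  | false =>
    rw [f1, cond_false] at hc
    rw [cond_false]
    obtain ⟨k1, hc⟩ := bd hc
    obtain ⟨k2, hc⟩ := bd hc
    obtain ⟨k3, k4⟩ := bd hc
    exact sat7 h9 (blt_lt k2) (blt_lt k3) (blt_lt k4)

end SY3
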