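import Pool.Agent.SY3.Asm
import Pool.Agent.SY3.Fast
import Pool.Agent.SYC.Fin

/-!
# Weak cliques in dimension 3 have at most eight members
-/

set_option autoImplicit false

namespace SY3

/-- **At most eight members.** -/
theorem final_le_eight {n : ℕ} (W : Fin n → Fin 4 → ℝ) (h : C1S.Clique W) : n ≤ 8 :=
  clique_le_eight (fun w hw h9 => SYC.refut (val w) fun g hg => gen9f_sound hw h9 g hg) W h

end SY3
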