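import Pool.Agent.SY3.Sem

/-!
# The clauses of the exact model and their soundness
-/

set_option autoImplicit false

namespace SY3

open BS9 N8S

/-- parameter `k` of a code -/
def pa (c k : ℕ) : ℕ := Nat.mod (Nat.div c (Nat.mul 8 (Nat.pow 128 k))) 128

/-- masks of the oriented row `r`: positions of `1` -/
def oP (r : ℕ) (o : Bool) : ℕ := bif o then rowM.getD r 0 else rowP.getD r 0

/-- masks of the oriented row `r`: positions of `-1` -/
def oM (r : ℕ) (o : Bool) : ℕ := bif o then rowP.getD r 0 else rowM.getD r 0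

/-- this literal fails if and only if `0 ≤ sign s * q`, `q` the value of the oriented row `r` -/
def wl (b r : ℕ) (o s : Bool) : ℕ × Bool := (key b r (xor (!s) o), true)

/-- this literal fails if and only if `0 < sign s * q`, `q` the value of the oriented row `r` -/
def sl (b r : ℕ) (o s : Bool) : ℕ × Bool := (key b r (xor s o), false)

/-- weak or strict -/
def lt5 (st : Bool) (b r : ℕ) (o s : Bool) : ℕ × Bool := bif st then sl b r o s else wl b r o s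

/-- weak or strict, for a minor of a 6-subset -/
def lt6 (st : Bool) (a k l : ℕ) (s : Bool) : ℕ × Bool :=
  bif st then (xkey a k l s, false) else (xkey a k l (!s), true)

/-- (E) not positive and negative -/
def g1 (x : ℕ) : List (ℕ × Bool) := [(2 * x, false), (2 * x + 1, false)]

/-- (D) at most one zero -/
def g2 (b i j : ℕ) : List (ℕ × Bool) :=
  [wl b (36 + i) false false, wl b (36 + i) false true, wl b (36 + j) false false,
    wl b (36 + j) false true]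

/-- the five weak assumptions of (T) -/
def pre (b C : ℕ) : List (ℕ × Bool) :=
  [wl b 36 false (tb C 0), wl b 37 false (tb C 1), wl b 38 false (tb C 2), wl b 39 false (tb C 3),
    wl b 40 false (tb C 4)]

/-- (T): two members -/
def g3 (b C r : ℕ) (o : Bool) : List (ℕ × Bool) := sl b r o false :: pre b C

/-- (T): one member -/
def g4 (b C r : ℕ) (o : Bool) : List (ℕ × Bool) := wl b r o false :: pre b C

/-- the mask of the signs `s_k = C_k` for `k = i, j`, `-C_k` otherwise: positions of `1` -/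
def tm (C i j : ℕ) : ℕ :=
  Nat.xor C (bif Nat.beq i j then Nat.pow 2 i else Nat.add (Nat.pow 2 i) (Nat.pow 2 j))

/-- three rows of one 5-subset -/
def g5 (b r1 : ℕ) (s1 : Bool) (r2 : ℕ) (s2 : Bool) (r3 : ℕ) (s3 : Bool) (t : ℕ) (sg : Bool) :
    List (ℕ × Bool) :=
  [lt5 (Nat.beq t 0) b r1 false (xor s1 sg), lt5 (Nat.beq t 1) b r2 false (xor s2 sg),
    lt5 (Nat.beq t 2) b r3 false (xor s3 sg)]

/-- magnitude of a coefficient: `1` or `2` -/
def mg (x : ℕ) : ℕ := bif tb x 0 then 2 else 1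

/-- bits as numbers -/
def bt (n k : ℕ) : ℕ := bn (tb n k)

/-- position `k` of the sum of the rows with coefficients vanishes -/
def lk (r1 x1 r2 x2 r3 x3 k : ℕ) : Bool :=
  Nat.beq
    (mg x1 * bt (oP r1 (tb x1 1)) k + mg x2 * bt (oP r2 (tb x2 1)) k +
      mg x3 * bt (oP r3 (tb x3 1)) k)
    (mg x1 * bt (oM r1 (tb x1 1)) k + mg x2 * bt (oM r2 (tb x2 1)) k +
      mg x3 * bt (oM r3 (tb x3 1)) k)

/-- the three term relation of a 6-subset -/
def g6 (a p q r rp rq rr : ℕ) (op oq oR s1 s2 s3 : Bool) (t : ℕ) (sg : Bool) :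
    List (ℕ × Bool) :=
  [lt6 (Nat.beq t 0) a q r s1, lt5 (Nat.beq t 0) (bid (A6.getD a 0) p) rp op (xor sg s1),
    lt6 (Nat.beq t 1) a p r s2, lt5 (Nat.beq t 1) (bid (A6.getD a 0) q) rq oq (xor sg (!s2)),
    lt6 (Nat.beq t 2) a p q s3, lt5 (Nat.beq t 2) (bid (A6.getD a 0) r) rr oR (xor sg s3)]

/-- delete the bit `p` -/
def db (P p : ℕ) : ℕ :=
  Nat.add (Nat.mod P (Nat.pow 2 p)) (Nat.mul (Nat.pow 2 p) (Nat.div P (Nat.pow 2 (Nat.succ p))))

/-- the clause of a code -/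
def gen (c : ℕ) : List (ℕ × Bool) :=
  bif Nat.beq (Nat.mod c 8) 1 then g1 (Nat.div c 8)
  else bif Nat.beq (Nat.mod c 8) 2 then g2 (pa c 0) (pa c 1) (pa c 2)
  else bif Nat.beq (Nat.mod c 8) 3 then
    (bif Nat.beq (pa c 2) 7 then pre (pa c 0) (pa c 1)
    else bif Nat.beq (pa c 2) (pa c 3) then g4 (pa c 0) (pa c 1) (pa c 4) (tb (pa c 5) 0)
    else g3 (pa c 0) (pa c 1) (pa c 4) (tb (pa c 5) 0))
  else bif Nat.beq (Nat.mod c 8) 4 then
    g5 (pa c 0) (pa c 1) (tb (pa c 2) 1) (pa c 3) (tb (pa c 4) 1) (pa c 5) (tb (pa c 6) 1)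
      (Nat.mod (pa c 7) 4) (tb (pa c 7) 2)
  else g6 (pa c 0) (pa c 1) (pa c 2) (pa c 3) (Nat.mod (pa c 6) 64) (Nat.mod (pa c 7) 64)
    (Nat.mod (pa c 8) 64) (tb (pa c 6) 6) (tb (pa c 7) 6) (tb (pa c 8) 6)
    (tb (pa c 9) 0) (tb (pa c 9) 1) (tb (pa c 9) 2) (Nat.mod (Nat.div (pa c 9) 8) 4)
    (tb (pa c 9) 5)

/-- validity of the parameters; `m` is the number of 5-subsets -/
def valid (m c : ℕ) : Bool :=
  bif Nat.beq (Nat.mod c 8) 1 then true
  else bif Nat.beq (Nat.mod c 8) 2 then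
    Nat.blt (pa c 0) m && Nat.blt (pa c 1) (pa c 2) && Nat.blt (pa c 2) 5
  else bif Nat.beq (Nat.mod c 8) 3 then
    (Nat.blt (pa c 0) m && bif Nat.beq (pa c 2) 7 then Nat.beq (pa c 1) 0 || Nat.beq (pa c 1) 31
    else Nat.blt (pa c 2) 5 && (Nat.blt (pa c 3) 5 && (Nat.blt (pa c 4) 16 &&
      (Nat.beq (oM (pa c 4) (tb (pa c 5) 0)) (Nat.xor (tm (pa c 1) (pa c 2) (pa c 3)) 31) &&
      (Nat.beq (oP (pa c 4) (tb (pa c 5) 0)) (tm (pa c 1) (pa c 2) (pa c 3)) &&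
      (Nat.beq (pa c 2) (pa c 3) || xor (tb (pa c 1) (pa c 2)) (tb (pa c 1) (pa c 3))))))))
  else bif Nat.beq (Nat.mod c 8) 4 then
    Nat.blt (pa c 0) m && (Nat.blt (pa c 1) 41 && (Nat.blt (pa c 3) 41 && (Nat.blt (pa c 5) 41 &&
      (Nat.blt (Nat.mod (pa c 7) 4) 3 &&
      (lk (pa c 1) (pa c 2) (pa c 3) (pa c 4) (pa c 5) (pa c 6) 0 &&
      (lk (pa c 1) (pa c 2) (pa c 3) (pa c 4) (pa c 5) (pa c 6) 1 &&
      (lk (pa c 1) (pa c 2) (pa c 3) (pa c 4) (pa c 5) (pa c 6) 2 &&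
      (lk (pa c 1) (pa c 2) (pa c 3) (pa c 4) (pa c 5) (pa c 6) 3 &&
      lk (pa c 1) (pa c 2) (pa c 3) (pa c 4) (pa c 5) (pa c 6) 4))))))))
  else Nat.blt (pa c 0) 84 && (Nat.blt (pa c 1) (pa c 2) && (Nat.blt (pa c 2) (pa c 3) &&
      (Nat.blt (pa c 3) 6 && (Nat.blt (pa c 4) 64 && (Nat.blt (pa c 5) 64 &&
      (Nat.blt (Nat.mod (pa c 6) 64) 41 && (Nat.blt (Nat.mod (pa c 7) 64) 41 &&
      (Nat.blt (Nat.mod (pa c 8) 64) 41 && (Nat.blt (Nat.mod (Nat.div (pa c 9) 8) 4) 3 &&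
      (Nat.beq (db (pa c 4) (pa c 1)) (oP (Nat.mod (pa c 6) 64) (tb (pa c 6) 6)) &&
      (Nat.beq (db (pa c 5) (pa c 1)) (oM (Nat.mod (pa c 6) 64) (tb (pa c 6) 6)) &&
      (Nat.beq (db (pa c 4) (pa c 2)) (oP (Nat.mod (pa c 7) 64) (tb (pa c 7) 6)) &&
      (Nat.beq (db (pa c 5) (pa c 2)) (oM (Nat.mod (pa c 7) 64) (tb (pa c 7) 6)) &&
      (Nat.beq (db (pa c 4) (pa c 3)) (oP (Nat.mod (pa c 8) 64) (tb (pa c 8) 6)) &&
      Nat.beq (db (pa c 5) (pa c 3)) (oM (Nat.mod (pa c 8) 64) (tb (pa c 8) 6))))))))))))))))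

/-- the clause is satisfied -/
def Sat (w : ℕ → Fin 4 → ℝ) (l : List (ℕ × Bool)) : Prop := ∃ p ∈ l, val w p.1 = p.2

/-- The hypotheses: the members `0, …, n - 1` of `w` form a weak clique without two zero minors in
a 5-subset. -/
structure Hyp (n : ℕ) (w : ℕ → Fin 4 → ℝ) : Prop where
  last : ∀ i < n, 0 < w i 3
  rel : ∀ s : Fin 5 → ℕ, Function.Injective s → (∀ i, s i < n) → ∀ c : Fin 5 → ℝ,
    (∀ a, ∑ k, c k * w (s k) a = 0) → ∀ i j, 0 < c i → c j < 0 → 2 * (c i - c j) ≤ ∑ k, |c k|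
  nz : ∀ s : Fin 5 → ℕ, Function.Injective s → (∀ i, s i < n) → ∀ i j : Fin 5, i < j →
    XK (fun k => w (s (Fin.ofNat 5 k))) i = 0 → XK (fun k => w (s (Fin.ofNat 5 k))) j ≠ 0

/-- the members `2, …, 8` are sorted around the edge `0, 1` -/
def Sorted9 (w : ℕ → Fin 4 → ℝ) : Prop :=
  ∀ i j : ℕ, 2 ≤ i → i < j → j < 9 → 0 ≤ D4 (w 0) (w 1) (w i) (w j)

/-- sorting -/
def g7 (i j : ℕ) : List (ℕ × Bool) := [(2 * r4 0 1 i j + 1, false)]

/-- the clause of a code, with sorting -/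
def gen9 (c : ℕ) : List (ℕ × Bool) :=
  bif Nat.beq (Nat.mod c 8) 7 then g7 (pa c 0) (pa c 1) else gen c

/-- validity of a code, with sorting -/
def valid9 (c : ℕ) : Bool :=
  bif Nat.beq (Nat.mod c 8) 7 then
    Nat.blt 1 (pa c 0) && (Nat.blt (pa c 0) (pa c 1) && Nat.blt (pa c 1) 9)
  else valid 126 c

end SY3
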