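import Pool.Agent.C1S.Zero
import Pool.Agent.N8S.SortedWeak
import Pool.Agent.SY3.Gen

/-!
# Nine members of a weak clique satisfy the hypotheses
-/

set_option autoImplicit false

namespace SY3

open BS9 N8S

theorem clique_comp {n k D : ℕ} {W : Fin n → Fin (D + 1) → ℝ} (h : C1S.Clique W)
    (s : Fin k → Fin n) (hs : Function.Injective s) : C1S.Clique (fun i => W (s i)) := by
  refine ⟨fun i => h.1 _, fun i j hij => ?_⟩
  obtain ⟨f, h1, h2, h3⟩ := h.2 (s i) (s j) fun e => hij (hs e)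
  exact ⟨f, h1, h2, fun k => h3 _⟩

theorem clique_rel2 {n D : ℕ} {W : Fin n → Fin (D + 1) → ℝ} (h : C1S.Clique W) {c : Fin n → ℝ}
    (hc : ∀ a, ∑ k, c k * W k a = 0) {i j : Fin n} (hi : 0 < c i) (hj : c j < 0) :
    2 * (c i - c j) ≤ ∑ k, |c k| := by
  classical
  have hij : i ≠ j := fun h => by subst h; linarith
  have h1 := h.rel hc hi hj
  have hji : j ∈ Finset.univ.erase i := Finset.mem_erase.2 ⟨Ne.symm hij, Finset.mem_univ j⟩
  rw [← Finset.add_sum_erase _ (fun k => |c k|) (Finset.mem_univ i),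
    ← Finset.add_sum_erase _ (fun k => |c k|) hji]
  rw [abs_of_pos hi, abs_of_neg hj]
  linarith

theorem mat_det4 {n : ℕ} (W : Fin n → Fin 4 → ℝ) (s : Fin 4 → Fin n) :
    (C1S.mat W s).det = D4 (W (s 0)) (W (s 1)) (W (s 2)) (W (s 3)) := by
  rw [D4_eq_det]
  congr 1
  ext r a
  fin_cases r <;> rfl

/-- extension to the natural numbers -/
def ext9 (W : Fin 9 → Fin 4 → ℝ) (i : ℕ) : Fin 4 → ℝ := W (Fin.ofNat 9 i)

theorem ofNat9 {i j : ℕ} (hi : i < 9) (hj : j < 9) (h : Fin.ofNat 9 i = Fin.ofNat 9 j) :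
    i = j := by
  have := congrArg Fin.val h
  simpa [Nat.mod_eq_of_lt hi, Nat.mod_eq_of_lt hj] using this

theorem hyp9 {W : Fin 9 → Fin 4 → ℝ} (h : C1S.Clique W) : Hyp 9 (ext9 W) := by
  refine ⟨fun i _ => h.1 _, ?_, ?_⟩
  · intro s hs hs9 c hc i j hi hj
    have hinj : Function.Injective fun k : Fin 5 => Fin.ofNat 9 (s k) := fun a b hab =>
      hs (ofNat9 (hs9 a) (hs9 b) hab)
    exact clique_rel2 (clique_comp h _ hinj) hc hi hj
  · intro s hs hs9 i j hij h1 h2
    have hinj : Function.Injective fun k : Fin 5 => Fin.ofNat 9 (s k) := fun a b hab =>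
      hs (ofNat9 (hs9 a) (hs9 b) hab)
    have key : ∀ i : Fin 5, (C1S.mat W (fun r => (fun k : Fin 5 => Fin.ofNat 9 (s k))
        (i.succAbove r))).det = XK (fun k => ext9 W (s (Fin.ofNat 5 k))) i := by
      intro i
      rw [mat_det4]
      fin_cases i <;> rfl
    exact C1S.two_zero h _ hinj (ne_of_lt hij) ((key i).trans h1) ((key j).trans h2)

/-- Nine members can be numbered such that all hypotheses hold. -/
theorem exists_hyp9 {W : Fin 9 → Fin 4 → ℝ} (h : C1S.Clique W) :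
    ∃ w : ℕ → Fin 4 → ℝ, Hyp 9 w ∧ Sorted9 w := by
  obtain ⟨p, hp⟩ := exists_sorted_weak (m := 5) W h.1
  refine ⟨ext9 (W ∘ p), hyp9 (clique_comp h p p.injective), ?_⟩
  intro i j hi hij hj
  have h1 := hp (Fin.ofNat 9 i) (Fin.ofNat 9 j) (by
      rw [Fin.le_def]
      simp only [Fin.val_ofNat, Nat.mod_eq_of_lt (show i < 9 by omega)]
      exact hi) (by
      rw [Fin.lt_def]
      simp only [Fin.val_ofNat, Nat.mod_eq_of_lt (show i < 9 by omega), Nat.mod_eq_of_lt hj]
      exact hij)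
  rw [mat_det4] at h1
  exact h1

/-- At most eight members, if no sorted nine members satisfy the hypotheses. -/
theorem clique_le_eight (hcert : ∀ w : ℕ → Fin 4 → ℝ, Hyp 9 w → Sorted9 w → False) {n : ℕ}
    (W : Fin n → Fin 4 → ℝ) (h : C1S.Clique W) : n ≤ 8 := by
  by_contra hn
  push Not at hn
  obtain ⟨w, h1, h2⟩ := exists_hyp9 (clique_comp h (Fin.castLE (show 9 ≤ n by omega))
    (Fin.castLE_injective _))
  exact hcert w h1 h2

end SY3
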