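import Pool.Agent.SY3.Snd

/-!
# Soundness of the family of the mixed three term relations
-/

set_option autoImplicit false

namespace SY3

open BS9 N8S

theorem tb_db : ∀ P < 64, ∀ p < 6, ∀ i < 5, tb (db P p) i = tb P (skip p i) := by
  decide +kernel

theorem rv_db {P M p i : ℕ} (hP : P < 64) (hM : M < 64) (hp : p < 6) (hi : i < 5) :
    rv (db P p) (db M p) i = rv P M (skip p i) := by
  unfold rv
  rw [tb_db P hP p hp i hi, tb_db M hM p hp i hi]

/-- the determinant depends only on five entries of the row and on five vectors -/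
theorem DV_congr {v v' : ℕ → Fin 4 → ℝ} {ρ ρ' : ℕ → ℝ} (hv : ∀ i < 5, v i = v' i)
    (hρ : ∀ i < 5, ρ i = ρ' i) : DV v ρ = DV v' ρ' := by
  have hX : ∀ k : ℕ, XK v k = XK v' k := by
    intro k
    unfold XK
    rw [hv _ (skip_lt (by norm_num)), hv _ (skip_lt (by norm_num)), hv _ (skip_lt (by norm_num)),
      hv _ (skip_lt (by norm_num))]
  unfold DV
  rw [hρ 0 (by norm_num), hρ 1 (by norm_num), hρ 2 (by norm_num), hρ 3 (by norm_num),
    hρ 4 (by norm_num), hX 0, hX 1, hX 2, hX 3, hX 4]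

/-- the value of a row of a 5-subset of a 6-subset -/
theorem Q_bid (w : ℕ → Fin 4 → ℝ) {a p P M r : ℕ} {o : Bool} (ha : a < 84) (hp : p < 6)
    (hP : P < 64) (hM : M < 64) (e1 : db P p = oP r o) (e2 : db M p = oM r o) :
    Q w (bid (A6.getD a 0) p) r o = SR (vh w (A6.getD a 0)) (rv P M) p := by
  unfold Q SR
  rw [← e1, ← e2]
  refine DV_congr ?_ ?_
  · intro i hi
    show w _ = w _
    rw [(T5_bid a ha p hp).2 i hi]
  · intro i hi
    exact rv_db hP hM hp hi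

theorem sat6 {w : ℕ → Fin 4 → ℝ} {a p q r P M rp rq rr t : ℕ} {op oq oR s1 s2 s3 sg : Bool}
    (ha : a < 84) (hpq : p < q) (hqr : q < r) (hr : r < 6) (hP : P < 64) (hM : M < 64)
    (h1 : rp < 41) (h2 : rq < 41) (h3 : rr < 41) (ht : t < 3)
    (e1 : db P p = oP rp op) (e2 : db M p = oM rp op)
    (e3 : db P q = oP rq oq) (e4 : db M q = oM rq oq)
    (e5 : db P r = oP rr oR) (e6 : db M r = oM rr oR) :
    Sat w (g6 a p q r rp rq rr op oq oR s1 s2 s3 t sg) := by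
  by_contra hcon
  unfold Sat g6 at hcon
  push Not at hcon
  have hp : p < 6 := by omega
  have hq : q < 6 := by omega
  obtain ⟨x1, x1'⟩ := lt6_fail (w := w) ha hqr hr
    (hcon (lt6 (Nat.beq t 0) a q r s1) (by simp))
  obtain ⟨y1, y1'⟩ := lt5_fail (w := w) (T5_bid a ha p hp).1 h1
    (hcon (lt5 (Nat.beq t 0) (bid (A6.getD a 0) p) rp op (xor sg s1)) (by simp))
  obtain ⟨x2, x2'⟩ := lt6_fail (w := w) ha (hpq.trans hqr) hr
    (hcon (lt6 (Nat.beq t 1) a p r s2) (by simp))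
  obtain ⟨y2, y2'⟩ := lt5_fail (w := w) (T5_bid a ha q hq).1 h2
    (hcon (lt5 (Nat.beq t 1) (bid (A6.getD a 0) q) rq oq (xor sg (!s2))) (by simp))
  obtain ⟨x3, x3'⟩ := lt6_fail (w := w) ha hpq hq
    (hcon (lt6 (Nat.beq t 2) a p q s3) (by simp))
  obtain ⟨y3, y3'⟩ := lt5_fail (w := w) (T5_bid a ha r hr).1 h3
    (hcon (lt5 (Nat.beq t 2) (bid (A6.getD a 0) r) rr oR (xor sg s3)) (by simp))
  rw [Q_bid w ha hp hP hM e1 e2] at y1 y1'
  rw [Q_bid w ha hq hP hM e3 e4] at y2 y2'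
  rw [Q_bid w ha hr hP hM e5 e6] at y3 y3'
  have hS := SRall (vh w (A6.getD a 0)) (rv P M) r hr q hqr p hpq
  refine three (x := (sb s1 * XX (vh w (A6.getD a 0)) q r) *
      (sb (xor sg s1) * SR (vh w (A6.getD a 0)) (rv P M) p))
    (y := (sb s2 * XX (vh w (A6.getD a 0)) p r) *
      (sb (xor sg (!s2)) * SR (vh w (A6.getD a 0)) (rv P M) q))
    (z := (sb s3 * XX (vh w (A6.getD a 0)) p q) *
      (sb (xor sg s3) * SR (vh w (A6.getD a 0)) (rv P M) r)) ?_
    (mul_nonneg x1 y1) (mul_nonneg x2 y2) (mul_nonneg x3 y3) ht ?_ ?_ ?_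
  · rw [sb_xor, sb_xor, sb_xor, sb_not]
    linear_combination (sb sg) * hS +
      (sb sg * XX (vh w (A6.getD a 0)) q r * SR (vh w (A6.getD a 0)) (rv P M) p) * sb_mul_self s1 -
      (sb sg * XX (vh w (A6.getD a 0)) p r * SR (vh w (A6.getD a 0)) (rv P M) q) * sb_mul_self s2 +
      (sb sg * XX (vh w (A6.getD a 0)) p q * SR (vh w (A6.getD a 0)) (rv P M) r) * sb_mul_self s3
  · intro h
    exact mul_pos (x1' (by rw [h]; rfl)) (y1' (by rw [h]; rfl))
  · intro h
    exact mul_pos (x2' (by rw [h]; rfl)) (y2' (by rw [h]; rfl))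
  · intro h
    exact mul_pos (x3' (by rw [h]; rfl)) (y3' (by rw [h]; rfl))

end SY3
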