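import Pool.Agent.SY3.Lit

/-!
# Soundness of the linear relations (three rows of one 5-subset)
-/

set_option autoImplicit false

namespace SY3

open BS9 N8S

theorem bt_val (n k : ℕ) : ((bt n k : ℕ) : ℝ) = if tb n k then 1 else 0 := by
  unfold bt
  cases tb n k <;> simp [bn]

theorem mg_pos (x : ℕ) : (0 : ℝ) < (mg x : ℕ) := by
  unfold mg
  cases tb x 0 <;> simp

theorem lk_real {r1 x1 r2 x2 r3 x3 k : ℕ} (h : lk r1 x1 r2 x2 r3 x3 k = true) :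
    (mg x1 : ℝ) * rv (oP r1 (tb x1 1)) (oM r1 (tb x1 1)) k +
      (mg x2 : ℝ) * rv (oP r2 (tb x2 1)) (oM r2 (tb x2 1)) k +
      (mg x3 : ℝ) * rv (oP r3 (tb x3 1)) (oM r3 (tb x3 1)) k = 0 := by
  unfold lk at h
  have h1 := Nat.eq_of_beq_eq_true h
  have h2 : ((mg x1 * bt (oP r1 (tb x1 1)) k + mg x2 * bt (oP r2 (tb x2 1)) k +
      mg x3 * bt (oP r3 (tb x3 1)) k : ℕ) : ℝ) =
    ((mg x1 * bt (oM r1 (tb x1 1)) k + mg x2 * bt (oM r2 (tb x2 1)) k +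
      mg x3 * bt (oM r3 (tb x3 1)) k : ℕ) : ℝ) := by rw [h1]
  push_cast at h2
  simp only [bt_val] at h2
  unfold rv
  linarith

theorem DV_lin (v : ℕ → Fin 4 → ℝ) (a b c : ℝ) (f g h : ℕ → ℝ)
    (H : ∀ k < 5, a * f k + b * g k + c * h k = 0) :
    a * DV v f + b * DV v g + c * DV v h = 0 := by
  unfold DV
  have h0 := H 0 (by norm_num)
  have h1 := H 1 (by norm_num)
  have h2 := H 2 (by norm_num)
  have h3 := H 3 (by norm_num)
  have h4 := H 4 (by norm_num)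
  linear_combination (XK v 0) * h0 - (XK v 1) * h1 + (XK v 2) * h2 - (XK v 3) * h3 +
    (XK v 4) * h4

theorem Q_false (w : ℕ → Fin 4 → ℝ) (b r : ℕ) (o : Bool) :
    Q w b r o = sb o * Q w b r false := by
  rw [Q_or, Q_or]
  simp [sb]

/-- (LIN) -/
theorem sat5 {w : ℕ → Fin 4 → ℝ} {b r1 x1 r2 x2 r3 x3 t : ℕ} {sg : Bool} (hb : b < 126)
    (h1 : r1 < 41) (h2 : r2 < 41) (h3 : r3 < 41) (ht : t < 3)
    (hk : ∀ k < 5, lk r1 x1 r2 x2 r3 x3 k = true) :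
    Sat w (g5 b r1 (tb x1 1) r2 (tb x2 1) r3 (tb x3 1) t sg) := by
  by_contra hcon
  unfold Sat g5 at hcon
  push Not at hcon
  obtain ⟨a1, b1⟩ := lt5_fail hb h1
    (hcon (lt5 (Nat.beq t 0) b r1 false (xor (tb x1 1) sg)) (by simp))
  obtain ⟨a2, b2⟩ := lt5_fail hb h2
    (hcon (lt5 (Nat.beq t 1) b r2 false (xor (tb x2 1) sg)) (by simp))
  obtain ⟨a3, b3⟩ := lt5_fail hb h3
    (hcon (lt5 (Nat.beq t 2) b r3 false (xor (tb x3 1) sg)) (by simp))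
  have e : ∀ r x : ℕ, sb (xor (tb x 1) sg) * Q w b r false = sb sg * Q w b r (tb x 1) := by
    intro r x
    rw [sb_xor, Q_false w b r (tb x 1)]
    ring
  rw [e] at a1 a2 a3 b1 b2 b3
  have hz : (mg x1 : ℝ) * Q w b r1 (tb x1 1) + (mg x2 : ℝ) * Q w b r2 (tb x2 1) +
      (mg x3 : ℝ) * Q w b r3 (tb x3 1) = 0 :=
    DV_lin _ _ _ _ _ _ _ (fun k hk' => lk_real (hk k hk'))
  have hz2 : (mg x1 : ℝ) * (sb sg * Q w b r1 (tb x1 1)) +
      (mg x2 : ℝ) * (sb sg * Q w b r2 (tb x2 1)) +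
      (mg x3 : ℝ) * (sb sg * Q w b r3 (tb x3 1)) = 0 := by
    linear_combination (sb sg) * hz
  refine three hz2 (mul_nonneg (mg_pos x1).le a1) (mul_nonneg (mg_pos x2).le a2)
    (mul_nonneg (mg_pos x3).le a3) ht ?_ ?_ ?_
  · rintro rfl
    exact mul_pos (mg_pos x1) (b1 rfl)
  · rintro rfl
    exact mul_pos (mg_pos x2) (b2 rfl)
  · rintro rfl
    exact mul_pos (mg_pos x3) (b3 rfl)

end SY3
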