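import Pool.Agent.SY3.SatT
import Pool.Agent.SY3.Snd5
import Pool.Agent.SY3.Sat6

/-!
# Soundness of the clauses
-/

set_option autoImplicit false

namespace SY3

open BS9 N8S

theorem sx {b r1 x1 r2 x2 r3 x3 : ℕ}
    (h : (lk r1 x1 r2 x2 r3 x3 0 && (lk r1 x1 r2 x2 r3 x3 1 && (lk r1 x1 r2 x2 r3 x3 2 &&
      (lk r1 x1 r2 x2 r3 x3 3 && lk r1 x1 r2 x2 r3 x3 4)))) = true) :
    ∀ k < 5, lk r1 x1 r2 x2 r3 x3 k = true := by
  have h0 := band h
  have h1 := band h0.2
  have h2 := band h1.2
  have h3 := band h2.2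
  intro k hk
  interval_cases k
  · exact h0.1
  · exact h1.1
  · exact h2.1
  · exact h3.1
  · exact h3.2

/-- **Soundness of the clauses.** -/
theorem gen_sound {n m : ℕ} {w : ℕ → Fin 4 → ℝ} (h : Hyp n w)
    (hm : ∀ b < m, ∀ k < 5, dh (T5.getD b 0) k < n) (hmm : m ≤ 126) (c : ℕ)
    (hc : valid m c = true) : Sat w (gen c) := by
  unfold valid at hc
  unfold gen
  cases h1 : Nat.beq (Nat.mod c 8) 1 with
  | true =>
    rw [cond_true]
    exact sat1 w _
  | false =>
  rw [h1, cond_false] at hc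
  rw [cond_false]
  cases h2 : Nat.beq (Nat.mod c 8) 2 with
  | true =>
    rw [h2, cond_true] at hc
    rw [cond_true]
    have g1 := band hc
    have g2 := band g1.1
    exact sat2 h hm hmm (blt_lt g2.1) (blt_lt g2.2) (blt_lt g1.2)
  | false =>
  rw [h2, cond_false] at hc
  rw [cond_false]
  cases h3 : Nat.beq (Nat.mod c 8) 3 with
  | true =>
    rw [h3, cond_true] at hc
    rw [cond_true]
    have g1 := band hc
    cases h7 : Nat.beq (pa c 2) 7 with
    | true =>
      rw [h7, cond_true] at g1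
      rw [cond_true]
      refine satA h hm hmm (blt_lt g1.1) ?_
      have g2 := g1.2
      rw [Bool.or_eq_true] at g2
      rcases g2 with g2 | g2
      · exact Or.inl (Nat.eq_of_beq_eq_true g2)
      · exact Or.inr (Nat.eq_of_beq_eq_true g2)
    | false =>
      rw [h7, cond_false] at g1
      rw [cond_false]
      have g2 := band g1.2
      have g3 := band g2.2
      have g4 := band g3.2
      have g5 := band g4.2
      have g6 := band g5.2
      have hM := Nat.eq_of_beq_eq_true g5.1
      have hP := Nat.eq_of_beq_eq_true g6.1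
      cases h8 : Nat.beq (pa c 2) (pa c 3) with
      | true =>
        rw [cond_true]
        have e := Nat.eq_of_beq_eq_true h8
        rw [← e] at hM hP
        exact sat4 h hm hmm (blt_lt g1.1) (blt_lt g2.1) (blt_lt g4.1) hP hM
      | false =>
        rw [cond_false]
        have g7 := g6.2
        rw [h8, Bool.false_or] at g7
        refine sat3 h hm hmm (blt_lt g1.1) (blt_lt g2.1) (blt_lt g3.1)
          (Nat.ne_of_beq_eq_false h8) (blt_lt g4.1) hP hM fun h9 => ?_
        rw [h9, Bool.xor_self] at g7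
        cases g7
  | false =>
  rw [h3, cond_false] at hc
  rw [cond_false]
  cases h4 : Nat.beq (Nat.mod c 8) 4 with
  | true =>
    rw [h4, cond_true] at hc
    rw [cond_true]
    have g1 := band hc
    have g2 := band g1.2
    have g3 := band g2.2
    have g4 := band g3.2
    have g5 := band g4.2
    have hb : pa c 0 < 126 := lt_of_lt_of_le (blt_lt g1.1) hmm
    exact sat5 hb (blt_lt g2.1) (blt_lt g3.1) (blt_lt g4.1) (blt_lt g5.1) (sx (b := 0) g5.2)
  | false =>
    rw [h4, cond_false] at hc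
    rw [cond_false]
    have g1 := band hc
    have g2 := band g1.2
    have g3 := band g2.2
    have g4 := band g3.2
    have g5 := band g4.2
    have g6 := band g5.2
    have g7 := band g6.2
    have g8 := band g7.2
    have g9 := band g8.2
    have g10 := band g9.2
    have k1 := band g10.2
    have k2 := band k1.2
    have k3 := band k2.2
    have k4 := band k3.2
    have k5 := band k4.2
    exact sat6 (blt_lt g1.1) (blt_lt g2.1) (blt_lt g3.1) (blt_lt g4.1) (blt_lt g5.1) (blt_lt g6.1)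
      (blt_lt g7.1) (blt_lt g8.1) (blt_lt g9.1) (blt_lt g10.1)
      (Nat.eq_of_beq_eq_true k1.1) (Nat.eq_of_beq_eq_true k2.1) (Nat.eq_of_beq_eq_true k3.1)
      (Nat.eq_of_beq_eq_true k4.1) (Nat.eq_of_beq_eq_true k5.1) (Nat.eq_of_beq_eq_true k5.2)

theorem T4_edge : ∀ j < 9, ∀ i < j, 2 ≤ i → r4 0 1 i j < 126 ∧
    dh (T4.getD (r4 0 1 i j) 0) 0 = 0 ∧ dh (T4.getD (r4 0 1 i j) 0) 1 = 1 ∧
    dh (T4.getD (r4 0 1 i j) 0) 2 = i ∧ dh (T4.getD (r4 0 1 i j) 0) 3 = j := by
  decide +kernel

theorem sat7 {w : ℕ → Fin 4 → ℝ} (h : Sorted9 w) {i j : ℕ} (hi : 2 ≤ i) (hij : i < j)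
    (hj : j < 9) : Sat w (g7 i j) := by
  refine ⟨(2 * r4 0 1 i j + 1, false), by simp [g7], ?_⟩
  obtain ⟨h1, h2, h3, h4, h5⟩ := T4_edge j hj i hij hi
  simp only
  have e : 2 * r4 0 1 i j + 1 = 2 * r4 0 1 i j + bn true := rfl
  rw [e, val_var]
  apply decide_eq_false
  unfold qv
  rw [if_pos h1]
  unfold XH vh
  rw [h2, h3, h4, h5, sb_true]
  have := h i j hi hij hj
  linarith

/-- **Soundness of the clauses, with sorting.** -/
theorem gen9_sound {w : ℕ → Fin 4 → ℝ} (h : Hyp 9 w) (h9 : Sorted9 w) (c : ℕ)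
    (hc : valid9 c = true) : Sat w (gen9 c) := by
  unfold valid9 at hc
  unfold gen9
  cases h1 : Nat.beq (Nat.mod c 8) 7 with
  | true =>
    rw [h1, cond_true] at hc
    rw [cond_true]
    have g1 := band hc
    have g2 := band g1.2
    exact sat7 h9 (blt_lt g1.1) (blt_lt g2.1) (blt_lt g2.2)
  | false =>
    rw [h1, cond_false] at hc
    rw [cond_false]
    exact gen_sound h lt9 le_rfl c hc

end SY3
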