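import Pool.Agent.SY3.Gen

/-!
# The literals
-/

set_option autoImplicit false

namespace SY3

open BS9 N8S

/-- the value of the oriented row -/
noncomputable def Q (w : ℕ → Fin 4 → ℝ) (b r : ℕ) (o : Bool) : ℝ :=
  DV (vh w (T5.getD b 0)) (rv (oP r o) (oM r o))

theorem rv_swap (P M k : ℕ) : rv M P k = - rv P M k := by unfold rv; ring

theorem DV_swap (v : ℕ → Fin 4 → ℝ) (P M : ℕ) : DV v (rv M P) = - DV v (rv P M) := by
  unfold DV
  simp only [rv_swap P M]
  ring

theorem Q_or (w : ℕ → Fin 4 → ℝ) (b r : ℕ) (o : Bool) :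
    Q w b r o = sb o * DV (vh w (T5.getD b 0)) (rv (rowP.getD r 0) (rowM.getD r 0)) := by
  unfold Q oP oM
  cases o with
  | false => simp [sb]
  | true =>
    rw [cond_true, cond_true, DV_swap]
    simp [sb]

theorem dec_true {p : Prop} [Decidable p] (h : decide p ≠ true) : ¬ p := fun hp =>
  h (decide_eq_true hp)

theorem dec_false {p : Prop} [Decidable p] (h : decide p ≠ false) : p := by
  by_contra hp
  exact h (decide_eq_false hp)

theorem wl_fail {w : ℕ → Fin 4 → ℝ} {b r : ℕ} {o s : Bool} (hb : b < 126) (hr : r < 41)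
    (h : val w (wl b r o s).1 ≠ (wl b r o s).2) : 0 ≤ sb s * Q w b r o := by
  unfold wl at h
  simp only at h
  rw [val_key w hb hr] at h
  have h1 := dec_true h
  rw [sb_xor, sb_not, mul_assoc, ← Q_or] at h1
  linarith

theorem sl_fail {w : ℕ → Fin 4 → ℝ} {b r : ℕ} {o s : Bool} (hb : b < 126) (hr : r < 41)
    (h : val w (sl b r o s).1 ≠ (sl b r o s).2) : 0 < sb s * Q w b r o := by
  unfold sl at h
  simp only at h
  rw [val_key w hb hr] at h
  have h1 := dec_false h
  rw [sb_xor, mul_assoc, ← Q_or] at h1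
  exact h1

theorem lt5_fail {w : ℕ → Fin 4 → ℝ} {st : Bool} {b r : ℕ} {o s : Bool} (hb : b < 126)
    (hr : r < 41) (h : val w (lt5 st b r o s).1 ≠ (lt5 st b r o s).2) :
    0 ≤ sb s * Q w b r o ∧ (st = true → 0 < sb s * Q w b r o) := by
  unfold lt5 at h
  cases st with
  | true =>
    rw [cond_true] at h
    have := sl_fail hb hr h
    exact ⟨this.le, fun _ => this⟩
  | false =>
    rw [cond_false] at h
    exact ⟨wl_fail hb hr h, fun hf => by cases hf⟩

theorem lt6_fail {w : ℕ → Fin 4 → ℝ} {st : Bool} {a k l : ℕ} {s : Bool} (ha : a < 84)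
    (hkl : k < l) (hl : l < 6) (h : val w (lt6 st a k l s).1 ≠ (lt6 st a k l s).2) :
    0 ≤ sb s * XX (vh w (A6.getD a 0)) k l ∧
      (st = true → 0 < sb s * XX (vh w (A6.getD a 0)) k l) := by
  unfold lt6 at h
  cases st with
  | true =>
    rw [cond_true] at h
    simp only at h
    rw [val_xkey w ha hkl hl] at h
    have := dec_false h
    exact ⟨this.le, fun _ => this⟩
  | false =>
    rw [cond_false] at h
    simp only at h
    rw [val_xkey w ha hkl hl] at h
    have := dec_true h
    rw [sb_not] at this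
    exact ⟨by linarith, fun hf => by cases hf⟩

/-- the value of the unit row -/
theorem Q_unit (w : ℕ → Fin 4 → ℝ) {b k : ℕ} (hk : k < 5) :
    Q w b (36 + k) false = sb (tb k 0) * XK (vh w (T5.getD b 0)) k := by
  rw [Q_or, DV_unit _ (by omega) (by omega)]
  have h1 : 36 + k - 36 = k := by omega
  have h2 : tb (36 + k) 0 = tb k 0 := by
    interval_cases k <;> decide
  rw [h1, h2]
  simp [sb]

/-- three terms with sum zero -/
theorem three {x y z : ℝ} (h : x + y + z = 0) (hx : 0 ≤ x) (hy : 0 ≤ y) (hz : 0 ≤ z) {t : ℕ}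
    (ht : t < 3) (h0 : t = 0 → 0 < x) (h1 : t = 1 → 0 < y) (h2 : t = 2 → 0 < z) : False := by
  interval_cases t
  · have := h0 rfl; linarith
  · have := h1 rfl; linarith
  · have := h2 rfl; linarith

theorem beq_self (n : ℕ) : Nat.beq n n = true := Nat.beq_refl n

end SY3
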