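import Pool.Agent.N8S.Gen

/-!
# The relations of the minors of the matrix with an arbitrary fifth row
-/

set_option autoImplicit false

namespace SY3

open BS9 N8S

/-- the determinant of five vectors with the fifth row `ρ` -/
def DV (v : ℕ → Fin 4 → ℝ) (ρ : ℕ → ℝ) : ℝ :=
  ρ 0 * XK v 0 - ρ 1 * XK v 1 + ρ 2 * XK v 2 - ρ 3 * XK v 3 + ρ 4 * XK v 4

/-- six vectors with a fifth row, the position `p` removed -/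
def SR (v : ℕ → Fin 4 → ℝ) (ρ : ℕ → ℝ) (p : ℕ) : ℝ :=
  DV (fun i => v (skip p i)) (fun i => ρ (skip p i))

section

variable (v : ℕ → Fin 4 → ℝ) (ρ : ℕ → ℝ)

theorem SR0 : SR v ρ 0 =
    ρ 1 * XX v 0 1 - ρ 2 * XX v 0 2 + ρ 3 * XX v 0 3 - ρ 4 * XX v 0 4 + ρ 5 * XX v 0 5 := rfl

theorem SR1 : SR v ρ 1 =
    ρ 0 * XX v 0 1 - ρ 2 * XX v 1 2 + ρ 3 * XX v 1 3 - ρ 4 * XX v 1 4 + ρ 5 * XX v 1 5 := rfl

theorem SR2 : SR v ρ 2 =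
    ρ 0 * XX v 0 2 - ρ 1 * XX v 1 2 + ρ 3 * XX v 2 3 - ρ 4 * XX v 2 4 + ρ 5 * XX v 2 5 := rfl

theorem SR3 : SR v ρ 3 =
    ρ 0 * XX v 0 3 - ρ 1 * XX v 1 3 + ρ 2 * XX v 2 3 - ρ 4 * XX v 3 4 + ρ 5 * XX v 3 5 := rfl

theorem SR4 : SR v ρ 4 =
    ρ 0 * XX v 0 4 - ρ 1 * XX v 1 4 + ρ 2 * XX v 2 4 - ρ 3 * XX v 3 4 + ρ 5 * XX v 4 5 := rfl

theorem SR5 : SR v ρ 5 =
    ρ 0 * XX v 0 5 - ρ 1 * XX v 1 5 + ρ 2 * XX v 2 5 - ρ 3 * XX v 3 5 + ρ 4 * XX v 4 5 := rfl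

theorem mx012 : SR v ρ 0 * XX v 1 2 - SR v ρ 1 * XX v 0 2 + SR v ρ 2 * XX v 0 1 = 0 := by
  rw [SR0, SR1, SR2]
  linear_combination (ρ 3) * gp0123 v + (-ρ 4) * gp0124 v + (ρ 5) * gp0125 v

theorem mx013 : SR v ρ 0 * XX v 1 3 - SR v ρ 1 * XX v 0 3 + SR v ρ 3 * XX v 0 1 = 0 := by
  rw [SR0, SR1, SR3]
  linear_combination (ρ 2) * gp0123 v + (-ρ 4) * gp0134 v + (ρ 5) * gp0135 v

theorem mx014 : SR v ρ 0 * XX v 1 4 - SR v ρ 1 * XX v 0 4 + SR v ρ 4 * XX v 0 1 = 0 := by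
  rw [SR0, SR1, SR4]
  linear_combination (ρ 2) * gp0124 v + (-ρ 3) * gp0134 v + (ρ 5) * gp0145 v

theorem mx015 : SR v ρ 0 * XX v 1 5 - SR v ρ 1 * XX v 0 5 + SR v ρ 5 * XX v 0 1 = 0 := by
  rw [SR0, SR1, SR5]
  linear_combination (ρ 2) * gp0125 v + (-ρ 3) * gp0135 v + (ρ 4) * gp0145 v

theorem mx023 : SR v ρ 0 * XX v 2 3 - SR v ρ 2 * XX v 0 3 + SR v ρ 3 * XX v 0 2 = 0 := by
  rw [SR0, SR2, SR3]
  linear_combination (ρ 1) * gp0123 v + (-ρ 4) * gp0234 v + (ρ 5) * gp0235 v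

theorem mx024 : SR v ρ 0 * XX v 2 4 - SR v ρ 2 * XX v 0 4 + SR v ρ 4 * XX v 0 2 = 0 := by
  rw [SR0, SR2, SR4]
  linear_combination (ρ 1) * gp0124 v + (-ρ 3) * gp0234 v + (ρ 5) * gp0245 v

theorem mx025 : SR v ρ 0 * XX v 2 5 - SR v ρ 2 * XX v 0 5 + SR v ρ 5 * XX v 0 2 = 0 := by
  rw [SR0, SR2, SR5]
  linear_combination (ρ 1) * gp0125 v + (-ρ 3) * gp0235 v + (ρ 4) * gp0245 v

theorem mx034 : SR v ρ 0 * XX v 3 4 - SR v ρ 3 * XX v 0 4 + SR v ρ 4 * XX v 0 3 = 0 := by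
  rw [SR0, SR3, SR4]
  linear_combination (ρ 1) * gp0134 v + (-ρ 2) * gp0234 v + (ρ 5) * gp0345 v

theorem mx035 : SR v ρ 0 * XX v 3 5 - SR v ρ 3 * XX v 0 5 + SR v ρ 5 * XX v 0 3 = 0 := by
  rw [SR0, SR3, SR5]
  linear_combination (ρ 1) * gp0135 v + (-ρ 2) * gp0235 v + (ρ 4) * gp0345 v

theorem mx045 : SR v ρ 0 * XX v 4 5 - SR v ρ 4 * XX v 0 5 + SR v ρ 5 * XX v 0 4 = 0 := by
  rw [SR0, SR4, SR5]
  linear_combination (ρ 1) * gp0145 v + (-ρ 2) * gp0245 v + (ρ 3) * gp0345 v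

theorem mx123 : SR v ρ 1 * XX v 2 3 - SR v ρ 2 * XX v 1 3 + SR v ρ 3 * XX v 1 2 = 0 := by
  rw [SR1, SR2, SR3]
  linear_combination (ρ 0) * gp0123 v + (-ρ 4) * gp1234 v + (ρ 5) * gp1235 v

theorem mx124 : SR v ρ 1 * XX v 2 4 - SR v ρ 2 * XX v 1 4 + SR v ρ 4 * XX v 1 2 = 0 := by
  rw [SR1, SR2, SR4]
  linear_combination (ρ 0) * gp0124 v + (-ρ 3) * gp1234 v + (ρ 5) * gp1245 v

theorem mx125 : SR v ρ 1 * XX v 2 5 - SR v ρ 2 * XX v 1 5 + SR v ρ 5 * XX v 1 2 = 0 := by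
  rw [SR1, SR2, SR5]
  linear_combination (ρ 0) * gp0125 v + (-ρ 3) * gp1235 v + (ρ 4) * gp1245 v

theorem mx134 : SR v ρ 1 * XX v 3 4 - SR v ρ 3 * XX v 1 4 + SR v ρ 4 * XX v 1 3 = 0 := by
  rw [SR1, SR3, SR4]
  linear_combination (ρ 0) * gp0134 v + (-ρ 2) * gp1234 v + (ρ 5) * gp1345 v

theorem mx135 : SR v ρ 1 * XX v 3 5 - SR v ρ 3 * XX v 1 5 + SR v ρ 5 * XX v 1 3 = 0 := by
  rw [SR1, SR3, SR5]
  linear_combination (ρ 0) * gp0135 v + (-ρ 2) * gp1235 v + (ρ 4) * gp1345 v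

theorem mx145 : SR v ρ 1 * XX v 4 5 - SR v ρ 4 * XX v 1 5 + SR v ρ 5 * XX v 1 4 = 0 := by
  rw [SR1, SR4, SR5]
  linear_combination (ρ 0) * gp0145 v + (-ρ 2) * gp1245 v + (ρ 3) * gp1345 v

theorem mx234 : SR v ρ 2 * XX v 3 4 - SR v ρ 3 * XX v 2 4 + SR v ρ 4 * XX v 2 3 = 0 := by
  rw [SR2, SR3, SR4]
  linear_combination (ρ 0) * gp0234 v + (-ρ 1) * gp1234 v + (ρ 5) * gp2345 v

theorem mx235 : SR v ρ 2 * XX v 3 5 - SR v ρ 3 * XX v 2 5 + SR v ρ 5 * XX v 2 3 = 0 := by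
  rw [SR2, SR3, SR5]
  linear_combination (ρ 0) * gp0235 v + (-ρ 1) * gp1235 v + (ρ 4) * gp2345 v

theorem mx245 : SR v ρ 2 * XX v 4 5 - SR v ρ 4 * XX v 2 5 + SR v ρ 5 * XX v 2 4 = 0 := by
  rw [SR2, SR4, SR5]
  linear_combination (ρ 0) * gp0245 v + (-ρ 1) * gp1245 v + (ρ 3) * gp2345 v

theorem mx345 : SR v ρ 3 * XX v 4 5 - SR v ρ 4 * XX v 3 5 + SR v ρ 5 * XX v 3 4 = 0 := by
  rw [SR3, SR4, SR5]
  linear_combination (ρ 0) * gp0345 v + (-ρ 1) * gp1345 v + (ρ 2) * gp2345 v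

theorem SRall : ∀ r < 6, ∀ q < r, ∀ p < q,
    SR v ρ p * XX v q r - SR v ρ q * XX v p r + SR v ρ r * XX v p q = 0 := by
  intro r hr q hq p hp
  interval_cases r <;> interval_cases q <;> interval_cases p <;>
    first | exact mx012 v ρ | exact mx013 v ρ | exact mx014 v ρ | exact mx015 v ρ | exact mx023 v ρ | exact mx024 v ρ | exact mx025 v ρ | exact mx034 v ρ | exact mx035 v ρ | exact mx045 v ρ | exact mx123 v ρ | exact mx124 v ρ | exact mx125 v ρ | exact mx134 v ρ | exact mx135 v ρ | exact mx145 v ρ | exact mx234 v ρ | exact mx235 v ρ | exact mx245 v ρ | exact mx345 v ρ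

end

end SY3
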