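import Pool.Agent.SY3.Snd

/-!
# Soundness of the clauses (T)
-/

set_option autoImplicit false

namespace SY3

open BS9 N8S Finset

theorem tb_testBit (n k : ℕ) : tb n k = n.testBit k := by
  unfold tb
  rw [Nat.testBit_eq_decide_div_mod_eq]
  have h : Nat.mod (Nat.div n (Nat.pow 2 k)) 2 = n / 2 ^ k % 2 := rfl
  rw [h]
  cases h1 : Nat.beq (n / 2 ^ k % 2) 1
  · have := Nat.ne_of_beq_eq_false h1
    simp [this]
  · have := Nat.eq_of_beq_eq_true h1
    simp [this]

theorem tb_two : ∀ i < 5, ∀ j < 5, ∀ k < 5, Nat.testBit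
    (bif Nat.beq i j then Nat.pow 2 i else Nat.add (Nat.pow 2 i) (Nat.pow 2 j)) k =
      (Nat.beq k i || Nat.beq k j) := by decide +kernel

theorem tb_31 : ∀ k < 5, Nat.testBit 31 k = true := by decide +kernel

theorem tb_tm {C i j k : ℕ} (hi : i < 5) (hj : j < 5) (hk : k < 5) :
    tb (tm C i j) k = xor (tb C k) (Nat.beq k i || Nat.beq k j) := by
  rw [tb_testBit, tb_testBit]
  unfold tm
  have h : ∀ x y : ℕ, Nat.xor x y = x ^^^ y := fun _ _ => rfl
  rw [h, Nat.testBit_xor, tb_two i hi j hj k hk]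

theorem tb_tm' {C i j k : ℕ} (hi : i < 5) (hj : j < 5) (hk : k < 5) :
    tb (Nat.xor (tm C i j) 31) k = !(xor (tb C k) (Nat.beq k i || Nat.beq k j)) := by
  have h : ∀ x y : ℕ, Nat.xor x y = x ^^^ y := fun _ _ => rfl
  rw [tb_testBit, h, Nat.testBit_xor, tb_31 k hk, ← tb_testBit, tb_tm hi hj hk, Bool.xor_true]

/-- the facts about a relation of five members with weak signs `C` -/
theorem facts {n m : ℕ} {w : ℕ → Fin 4 → ℝ} (h : Hyp n w)
    (hm : ∀ b < m, ∀ k < 5, dh (T5.getD b 0) k < n) (hmm : m ≤ 126) {b C : ℕ}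
    (hb : b < m) (hC : ∀ k : Fin 5, 0 ≤ sb (tb C k) * cf (vh w (T5.getD b 0)) k) :
    (∀ k : Fin 5, sb (tb C k) * cf (vh w (T5.getD b 0)) k = |cf (vh w (T5.getD b 0)) k|) ∧
    (∀ i : Fin 5, 2 * |cf (vh w (T5.getD b 0)) i| < ∑ k, |cf (vh w (T5.getD b 0)) k|) ∧
    (∀ i j : Fin 5, tb C i ≠ tb C j → 2 * (|cf (vh w (T5.getD b 0)) i| +
      |cf (vh w (T5.getD b 0)) j|) ≤ ∑ k, |cf (vh w (T5.getD b 0)) k|) ∧
    ∃ i j : Fin 5, tb C i ≠ tb C j := by
  classical
  have hb' : b < 126 := by omega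
  set v := vh w (T5.getD b 0) with hv
  set s : Fin 5 → ℕ := fun k => dh (T5.getD b 0) k with hs
  have hsi : Function.Injective s := by
    intro x y hxy
    by_contra hne
    exact inj5 b hb' x x.2 y y.2 (fun h => hne (Fin.ext h)) hxy
  have hsn : ∀ k, s k < n := fun k => hm b hb k k.2
  have hrel := h.rel s hsi hsn (cf v) (cf_rel v)
  have hpos : ∀ k : Fin 5, 0 < v k 3 := fun k => h.last _ (hsn k)
  have hsum : ∑ k : Fin 5, cf v k * v k 3 = 0 := cf_rel v 3
  -- not all zero
  have hnz : ∃ k, cf v k ≠ 0 := by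
    by_contra hall
    push Not at hall
    have hX : ∀ k : Fin 5, XK v k = 0 := by
      intro k
      have := hall k
      unfold cf at this
      exact (mul_eq_zero.1 this).resolve_left (by cases tb (k : ℕ) 0 <;> simp [sb])
    have hvv : ∀ k < 5, (fun k => w (s (Fin.ofNat 5 k))) k = v k := by
      intro k hk
      simp only [hs, hv, vh, Fin.val_ofNat, Nat.mod_eq_of_lt hk]
    have hXX : ∀ k < 5, XK (fun k => w (s (Fin.ofNat 5 k))) k = XK v k := by
      intro k hk
      unfold XK
      rw [hvv _ (skip_lt (by norm_num)), hvv _ (skip_lt (by norm_num)),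
        hvv _ (skip_lt (by norm_num)), hvv _ (skip_lt (by norm_num))]
    refine h.nz s hsi hsn 0 1 (by decide) ?_ ?_
    · rw [hXX _ (0 : Fin 5).2]; exact hX 0
    · rw [hXX _ (1 : Fin 5).2]; exact hX 1
  have habs : ∀ k : Fin 5, sb (tb C k) * cf v k = |cf v k| := by
    intro k
    have h1 := hC k
    cases hb2 : tb C k with
    | false =>
      rw [hb2, sb_false, one_mul] at h1
      rw [sb_false, one_mul, abs_of_nonneg h1]
    | true =>
      rw [hb2, sb_true] at h1
      rw [sb_true, abs_of_nonpos (by linarith)]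
      ring
  -- a member of nonzero coefficient has an opposite one
  have hopp : ∀ i, cf v i ≠ 0 → ∃ j, cf v j * cf v i < 0 := by
    intro i hi
    by_contra hall
    push Not at hall
    have h1 : ∑ k : Fin 5, (cf v k * cf v i) * v k 3 = 0 := by
      have : ∑ k : Fin 5, (cf v k * cf v i) * v k 3 = cf v i * ∑ k : Fin 5, cf v k * v k 3 := by
        rw [Finset.mul_sum]
        exact Finset.sum_congr rfl fun k _ => by ring
      rw [this, hsum, mul_zero]
    have h2 : 0 < ∑ k : Fin 5, (cf v k * cf v i) * v k 3 := by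
      refine Finset.sum_pos' (fun k _ => mul_nonneg (hall k) (hpos k).le) ⟨i, mem_univ i, ?_⟩
      exact mul_pos (mul_self_pos.2 hi) (hpos i)
    linarith
  have hr2 : ∀ i j, cf v j * cf v i < 0 → 2 * (|cf v i| + |cf v j|) ≤ ∑ k, |cf v k| := by
    intro i j hij
    rcases lt_or_ge 0 (cf v i) with h1 | h1
    · have h2 : cf v j < 0 := by
        by_contra hc
        push Not at hc
        nlinarith
      have := hrel i j h1 h2
      rw [abs_of_pos h1, abs_of_neg h2]
      linarith
    · have h1' : cf v i < 0 := lt_of_le_of_ne h1 (fun h0 => by rw [h0, mul_zero] at hij; exact lt_irrefl _ hij)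
      have h2 : 0 < cf v j := by
        by_contra hc
        push Not at hc
        nlinarith
      have := hrel j i h2 h1'
      rw [abs_of_neg h1', abs_of_pos h2]
      linarith
  have key1 : ∀ i : Fin 5, 2 * |cf v i| < ∑ k, |cf v k| := by
    intro i
    by_cases hi : cf v i = 0
    · rw [hi, abs_zero, mul_zero]
      obtain ⟨k, hk⟩ := hnz
      exact Finset.sum_pos' (fun k _ => abs_nonneg _) ⟨k, mem_univ k, abs_pos.2 hk⟩
    · obtain ⟨j, hj⟩ := hopp i hi
      have h1 := hr2 i j hj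
      have h2 : 0 < |cf v j| := abs_pos.2 (fun h0 => by rw [h0, zero_mul] at hj; exact lt_irrefl _ hj)
      linarith
  refine ⟨habs, key1, ?_, ?_⟩
  · intro i j hij
    by_cases hi : cf v i = 0
    · rw [hi, abs_zero, zero_add]
      exact (key1 j).le
    by_cases hj : cf v j = 0
    · rw [hj, abs_zero, add_zero]
      exact (key1 i).le
    refine hr2 i j ?_
    have h1 := hC i
    have h2 := hC j
    have h1' : 0 < sb (tb C i) * cf v i := lt_of_le_of_ne h1 (fun h0 => by
      rcases mul_eq_zero.1 h0.symm with h3 | h3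
      · cases hh : tb C i <;> rw [hh] at h3 <;> simp [sb] at h3
      · exact hi h3)
    have h2' : 0 < sb (tb C j) * cf v j := lt_of_le_of_ne h2 (fun h0 => by
      rcases mul_eq_zero.1 h0.symm with h3 | h3
      · cases hh : tb C j <;> rw [hh] at h3 <;> simp [sb] at h3
      · exact hj h3)
    cases hci : tb C i with
    | false =>
      cases hcj : tb C j with
      | false => rw [hci, hcj] at hij; exact absurd rfl hij
      | true =>
        rw [hci, sb_false] at h1'
        rw [hcj, sb_true] at h2'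
        nlinarith
    | true =>
      cases hcj : tb C j with
      | true => rw [hci, hcj] at hij; exact absurd rfl hij
      | false =>
        rw [hci, sb_true] at h1'
        rw [hcj, sb_false] at h2'
        nlinarith
  · by_contra hall
    push Not at hall
    obtain ⟨i, hi⟩ := hnz
    obtain ⟨j, hj⟩ := hopp i hi
    have h1 := hC i
    have h2 := hC j
    rw [hall j i] at h2
    cases hci : tb C i with
    | false =>
      rw [hci, sb_false] at h1 h2
      nlinarith
    | true =>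
      rw [hci, sb_true] at h1 h2
      nlinarith

/-- the value of a row -/
theorem Q_sum (w : ℕ → Fin 4 → ℝ) (b r : ℕ) (o : Bool) :
    Q w b r o = ∑ k : Fin 5, rv (oP r o) (oM r o) k * cf (vh w (T5.getD b 0)) k := by
  unfold Q DV cf
  rw [Fin.sum_univ_five]
  have h0 : sb (tb ((0 : Fin 5) : ℕ) 0) = 1 := sb_false
  have h1 : sb (tb ((1 : Fin 5) : ℕ) 0) = -1 := sb_true
  have h2 : sb (tb ((2 : Fin 5) : ℕ) 0) = 1 := sb_false
  have h3 : sb (tb ((3 : Fin 5) : ℕ) 0) = -1 := sb_true
  have h4 : sb (tb ((4 : Fin 5) : ℕ) 0) = 1 := sb_false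
  rw [h0, h1, h2, h3, h4]
  simp only [Fin.val_zero, Fin.val_one, Fin.val_two]
  have e3 : ((3 : Fin 5) : ℕ) = 3 := rfl
  have e4 : ((4 : Fin 5) : ℕ) = 4 := rfl
  rw [e3, e4]
  ring

/-- the weak assumptions -/
theorem pre_fail {w : ℕ → Fin 4 → ℝ} {b C : ℕ} (hb : b < 126)
    (h : ∀ p ∈ pre b C, val w p.1 ≠ p.2) (k : Fin 5) :
    0 ≤ sb (tb C k) * cf (vh w (T5.getD b 0)) k := by
  have hk : wl b (36 + k) false (tb C k) ∈ pre b C := by
    unfold pre
    fin_cases k <;> simp
  have h1 := wl_fail hb (by omega) (h _ hk)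
  rw [Q_unit w k.2] at h1
  exact h1

/-- the value of the row of (T) -/
theorem Q_tm {w : ℕ → Fin 4 → ℝ} {b C r i j : ℕ} {o : Bool} (hi : i < 5) (hj : j < 5)
    (hP : oP r o = tm C i j) (hM : oM r o = Nat.xor (tm C i j) 31)
    (habs : ∀ k : Fin 5, sb (tb C k) * cf (vh w (T5.getD b 0)) k =
      |cf (vh w (T5.getD b 0)) k|) :
    Q w b r o = ∑ k : Fin 5, (if (k : ℕ) = i ∨ (k : ℕ) = j then 1 else -1) *
      |cf (vh w (T5.getD b 0)) k| := by
  rw [Q_sum]
  refine Finset.sum_congr rfl fun k _ => ?_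
  have hd : ∀ a b : ℕ, Nat.beq a b = decide (a = b) := by
    intro a b
    cases h : Nat.beq a b
    · have := Nat.ne_of_beq_eq_false h
      simp [this]
    · have := Nat.eq_of_beq_eq_true h
      simp [this]
  have hr : rv (oP r o) (oM r o) k =
      (if (k : ℕ) = i ∨ (k : ℕ) = j then 1 else -1) * sb (tb C k) := by
    unfold rv
    rw [hP, hM, tb_tm hi hj k.2, tb_tm' hi hj k.2, hd, hd]
    by_cases h1 : (k : ℕ) = i ∨ (k : ℕ) = j
    · rw [if_pos h1]
      have : (decide ((k : ℕ) = i) || decide ((k : ℕ) = j)) = true := by simpa using h1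
      rw [this]
      cases tb C k <;> simp [sb]
    · rw [if_neg h1]
      have : (decide ((k : ℕ) = i) || decide ((k : ℕ) = j)) = false := by simpa using h1
      rw [this]
      cases tb C k <;> simp [sb]
  rw [hr, mul_assoc, habs]

theorem sum_ite {t : Fin 5 → ℝ} (i j : Fin 5) (hij : i ≠ j) :
    ∑ k : Fin 5, (if (k : ℕ) = i ∨ (k : ℕ) = j then 1 else -1) * t k =
      2 * (t i + t j) - ∑ k, t k := by
  have h1 : ∀ k : Fin 5, (if (k : ℕ) = i ∨ (k : ℕ) = j then (1 : ℝ) else -1) * t k =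
      2 * ((if k = i then t k else 0) + (if k = j then t k else 0)) - t k := by
    intro k
    by_cases hki : k = i
    · subst hki
      rw [if_pos (Or.inl rfl), if_pos rfl, if_neg hij]
      ring
    · by_cases hkj : k = j
      · subst hkj
        rw [if_pos (Or.inr rfl), if_neg hki, if_pos rfl]
        ring
      · rw [if_neg (by rintro (h | h); exacts [hki (Fin.ext h), hkj (Fin.ext h)]), if_neg hki,
          if_neg hkj]
        ring
  rw [Finset.sum_congr rfl fun k _ => h1 k, Finset.sum_sub_distrib, ← Finset.mul_sum,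
    Finset.sum_add_distrib]
  simp

theorem sum_ite1 {t : Fin 5 → ℝ} (i : Fin 5) :
    ∑ k : Fin 5, (if (k : ℕ) = i ∨ (k : ℕ) = i then 1 else -1) * t k =
      2 * t i - ∑ k, t k := by
  have h1 : ∀ k : Fin 5, (if (k : ℕ) = i ∨ (k : ℕ) = i then (1 : ℝ) else -1) * t k =
      2 * (if k = i then t k else 0) - t k := by
    intro k
    by_cases hki : k = i
    · subst hki
      rw [if_pos (Or.inl rfl), if_pos rfl]
      ring
    · rw [if_neg (by rintro (h | h) <;> exact hki (Fin.ext h)), if_neg hki]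
      ring
  rw [Finset.sum_congr rfl fun k _ => h1 k, Finset.sum_sub_distrib, ← Finset.mul_sum]
  simp

/-- (T), two members -/
theorem sat3 {n m : ℕ} {w : ℕ → Fin 4 → ℝ} (h : Hyp n w)
    (hm : ∀ b < m, ∀ k < 5, dh (T5.getD b 0) k < n) (hmm : m ≤ 126) {b C r i j : ℕ} {o : Bool}
    (hb : b < m) (hi : i < 5) (hj : j < 5) (hij : i ≠ j) (hr : r < 16)
    (hP : oP r o = tm C i j) (hM : oM r o = Nat.xor (tm C i j) 31) (hc : tb C i ≠ tb C j) :
    Sat w (g3 b C r o) := by
  by_contra hcon
  unfold Sat at hcon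
  push Not at hcon
  have hb' : b < 126 := by omega
  have hC := pre_fail (C := C) hb' (fun p hp => hcon p (List.mem_cons_of_mem _ hp))
  obtain ⟨habs, -, hT, -⟩ := facts h hm hmm hb hC
  have h1 := sl_fail hb' (by omega) (hcon (sl b r o false) (by unfold g3; simp))
  rw [sb_false, one_mul, Q_tm hi hj hP hM habs] at h1
  have h2 := sum_ite (t := fun k => |cf (vh w (T5.getD b 0)) k|) ⟨i, hi⟩ ⟨j, hj⟩
    (fun h => hij (by simpa using h))
  simp only [] at h2
  rw [h2] at h1
  have h3 := hT ⟨i, hi⟩ ⟨j, hj⟩ hc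
  linarith

/-- (T), one member -/
theorem sat4 {n m : ℕ} {w : ℕ → Fin 4 → ℝ} (h : Hyp n w)
    (hm : ∀ b < m, ∀ k < 5, dh (T5.getD b 0) k < n) (hmm : m ≤ 126) {b C r i : ℕ} {o : Bool}
    (hb : b < m) (hi : i < 5) (hr : r < 16)
    (hP : oP r o = tm C i i) (hM : oM r o = Nat.xor (tm C i i) 31) : Sat w (g4 b C r o) := by
  by_contra hcon
  unfold Sat at hcon
  push Not at hcon
  have hb' : b < 126 := by omega
  have hC := pre_fail (C := C) hb' (fun p hp => hcon p (List.mem_cons_of_mem _ hp))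
  obtain ⟨habs, hT, -, -⟩ := facts h hm hmm hb hC
  have h1 := wl_fail hb' (by omega) (hcon (wl b r o false) (by unfold g4; simp))
  rw [sb_false, one_mul, Q_tm hi hi hP hM habs] at h1
  have h2 := sum_ite1 (t := fun k => |cf (vh w (T5.getD b 0)) k|) ⟨i, hi⟩
  simp only [] at h2
  rw [h2] at h1
  have h3 := hT ⟨i, hi⟩
  linarith

/-- acyclic -/
theorem satA {n m : ℕ} {w : ℕ → Fin 4 → ℝ} (h : Hyp n w)
    (hm : ∀ b < m, ∀ k < 5, dh (T5.getD b 0) k < n) (hmm : m ≤ 126) {b C : ℕ}
    (hb : b < m) (hC : C = 0 ∨ C = 31) : Sat w (pre b C) := by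
  by_contra hcon
  unfold Sat at hcon
  push Not at hcon
  have hb' : b < 126 := by omega
  have hC' := pre_fail hb' hcon
  obtain ⟨-, -, -, i, j, hij⟩ := facts h hm hmm hb hC'
  refine hij ?_
  have key : ∀ k : Fin 5, tb 0 k = false ∧ tb 31 k = true := by decide
  rcases hC with rfl | rfl
  · rw [(key i).1, (key j).1]
  · rw [(key i).2, (key j).2]

end SY3
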