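import Pool.Agent.SY3.Rels

/-!
# The meaning of the variables: weak cliques of vectors of `ℝ ^ 4`

Quantities: `id < 126` is the minor of the 4-subset with number `id`; `126 + 36 b + r` is the
determinant of the 5-subset with number `b` with the fifth row number `r < 36`.  The variable
`2 id` says that the quantity is positive, `2 id + 1` that it is negative.
-/

set_option autoImplicit false

namespace SY3

open BS9 N8S

/-- hexadecimal digits -/
def dh (B k : ℕ) : ℕ := Nat.mod (Nat.div B (Nat.pow 16 k)) 16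

/-- the 4-subsets -/
def T4 : List ℕ := [
  12816, 16912, 17168, 17184, 17185, 21008, 21264, 21280, 21281, 21520,
  21536, 21537, 21552, 21553, 21554, 25104, 25360, 25376, 25377, 25616,
  25632, 25633, 25648, 25649, 25650, 25872, 25888, 25889, 25904, 25905,
  25906, 25920, 25921, 25922, 25923, 29200, 29456, 29472, 29473, 29712,
  29728, 29729, 29744, 29745, 29746, 29968, 29984, 29985, 30000, 30001,
  30002, 30016, 30017, 30018, 30019, 30224, 30240, 30241, 30256, 30257,
  30258, 30272, 30273, 30274, 30275, 30288, 30289, 30290, 30291, 30292,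
  33296, 33552, 33568, 33569, 33808, 33824, 33825, 33840, 33841, 33842,
  34064, 34080, 34081, 34096, 34097, 34098, 34112, 34113, 34114, 34115,
  34320, 34336, 34337, 34352, 34353, 34354, 34368, 34369, 34370, 34371,
  34384, 34385, 34386, 34387, 34388, 34576, 34592, 34593, 34608, 34609,
  34610, 34624, 34625, 34626, 34627, 34640, 34641, 34642, 34643, 34644,
  34656, 34657, 34658, 34659, 34660, 34661]

/-- the 5-subsets -/
def T5 : List ℕ := [
  274960, 340496, 344592, 344848, 344864, 344865, 406032, 410128, 410384, 410400,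
  410401, 414224, 414480, 414496, 414497, 414736, 414752, 414753, 414768, 414769,
  414770, 471568, 475664, 475920, 475936, 475937, 479760, 480016, 480032, 480033,
  480272, 480288, 480289, 480304, 480305, 480306, 483856, 484112, 484128, 484129,
  484368, 484384, 484385, 484400, 484401, 484402, 484624, 484640, 484641, 484656,
  484657, 484658, 484672, 484673, 484674, 484675, 537104, 541200, 541456, 541472,
  541473, 545296, 545552, 545568, 545569, 545808, 545824, 545825, 545840, 545841,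
  545842, 549392, 549648, 549664, 549665, 549904, 549920, 549921, 549936, 549937,
  549938, 550160, 550176, 550177, 550192, 550193, 550194, 550208, 550209, 550210,
  550211, 553488, 553744, 553760, 553761, 554000, 554016, 554017, 554032, 554033,
  554034, 554256, 554272, 554273, 554288, 554289, 554290, 554304, 554305, 554306,
  554307, 554512, 554528, 554529, 554544, 554545, 554546, 554560, 554561, 554562,
  554563, 554576, 554577, 554578, 554579, 554580]

/-- the 6-subsets -/
def A6 : List ℕ := [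
  5517840, 6566416, 6631952, 6636048, 6636304, 6636320, 6636321, 7614992, 7680528, 7684624,
  7684880, 7684896, 7684897, 7746064, 7750160, 7750416, 7750432, 7750433, 7754256, 7754512,
  7754528, 7754529, 7754768, 7754784, 7754785, 7754800, 7754801, 7754802, 8663568, 8729104,
  8733200, 8733456, 8733472, 8733473, 8794640, 8798736, 8798992, 8799008, 8799009, 8802832,
  8803088, 8803104, 8803105, 8803344, 8803360, 8803361, 8803376, 8803377, 8803378, 8860176,
  8864272, 8864528, 8864544, 8864545, 8868368, 8868624, 8868640, 8868641, 8868880, 8868896,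
  8868897, 8868912, 8868913, 8868914, 8872464, 8872720, 8872736, 8872737, 8872976, 8872992,
  8872993, 8873008, 8873009, 8873010, 8873232, 8873248, 8873249, 8873264, 8873265, 8873266,
  8873280, 8873281, 8873282, 8873283]

/-- the positions of `1` in the rows -/
def rowP : List ℕ := [
  31, 29, 27, 25, 23, 21, 19, 17, 15, 13,
  11, 9, 7, 5, 3, 1, 3, 1, 5, 1,
  6, 2, 9, 1, 10, 2, 12, 4, 17, 1,
  18, 2, 20, 4, 24, 8, 1, 2, 4, 8,
  16]

/-- the positions of `-1` in the rows -/
def rowM : List ℕ := [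
  0, 2, 4, 6, 8, 10, 12, 14, 16, 18,
  20, 22, 24, 26, 28, 30, 0, 2, 0, 4,
  0, 4, 0, 8, 0, 8, 0, 8, 0, 16,
  0, 16, 0, 16, 0, 16, 0, 0, 0, 0,
  0]

/-- the vectors of a packed set -/
def vh (w : ℕ → Fin 4 → ℝ) (B i : ℕ) : Fin 4 → ℝ := w (dh B i)

/-- determinant of a packed 4-set -/
def XH (w : ℕ → Fin 4 → ℝ) (Q : ℕ) : ℝ :=
  D4 (vh w Q 0) (vh w Q 1) (vh w Q 2) (vh w Q 3)

/-- the row of two masks -/
def rv (P M : ℕ) (k : ℕ) : ℝ := (if tb P k then 1 else 0) - (if tb M k then 1 else 0)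

/-- the quantities -/
noncomputable def qv (w : ℕ → Fin 4 → ℝ) (id : ℕ) : ℝ :=
  if id < 126 then XH w (T4.getD id 0) else
    DV (vh w (T5.getD ((id - 126) / 36) 0))
      (rv (rowP.getD ((id - 126) % 36) 0) (rowM.getD ((id - 126) % 36) 0))

/-- the value of a variable -/
noncomputable def val (w : ℕ → Fin 4 → ℝ) (x : ℕ) : Bool :=
  decide (0 < sb (decide (x % 2 = 1)) * qv w (x / 2))

/-- the number of a 4-subset of a packed set without the position `k` -/
def xid (B k : ℕ) : ℕ :=
  r4 (dh B (skip k 0)) (dh B (skip k 1)) (dh B (skip k 2)) (dh B (skip k 3))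

/-- the number of a 4-subset of a packed set without the positions `k < l` -/
def xid2 (A k l : ℕ) : ℕ :=
  r4 (dh A (skip l (skip k 0))) (dh A (skip l (skip k 1))) (dh A (skip l (skip k 2)))
    (dh A (skip l (skip k 3)))

/-- the number of a 5-subset of a packed set without the position `p` -/
def bid (A p : ℕ) : ℕ :=
  r5 (dh A (skip p 0)) (dh A (skip p 1)) (dh A (skip p 2)) (dh A (skip p 3)) (dh A (skip p 4))

/-- the variable `sign s` of the row `r` of the 5-subset `b` -/
def key (b r : ℕ) (s : Bool) : ℕ :=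
  bif Nat.blt r 36 then 2 * (126 + (36 * b + r)) + bn s
  else 2 * xid (T5.getD b 0) (r - 36) + bn (xor s (tb r 0))

/-- the variable `sign s` of a 4-subset of a 6-subset -/
def xkey (a k l : ℕ) (s : Bool) : ℕ := 2 * xid2 (A6.getD a 0) k l + bn s

theorem bn_lt (s : Bool) : bn s < 2 := by cases s <;> decide

theorem bn_dec (s : Bool) : decide (bn s = 1) = s := by cases s <;> rfl

theorem T4_xid : ∀ b < 126, ∀ k < 5, xid (T5.getD b 0) k < 126 ∧ ∀ i < 4,
    dh (T4.getD (xid (T5.getD b 0) k) 0) i = dh (T5.getD b 0) (skip k i) := by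
  decide +kernel

theorem T4_xid2 : ∀ a < 84, ∀ l < 6, ∀ k < l, xid2 (A6.getD a 0) k l < 126 ∧ ∀ i < 4,
    dh (T4.getD (xid2 (A6.getD a 0) k l) 0) i = dh (A6.getD a 0) (skip l (skip k i)) := by
  decide +kernel

theorem T5_bid : ∀ a < 84, ∀ p < 6, bid (A6.getD a 0) p < 126 ∧ ∀ i < 5,
    dh (T5.getD (bid (A6.getD a 0) p) 0) i = dh (A6.getD a 0) (skip p i) := by
  decide +kernel

theorem qv_xid (w : ℕ → Fin 4 → ℝ) {b k : ℕ} (hb : b < 126) (hk : k < 5) :
    qv w (xid (T5.getD b 0) k) = XK (vh w (T5.getD b 0)) k := by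
  obtain ⟨h1, h2⟩ := T4_xid b hb k hk
  unfold qv
  rw [if_pos h1]
  unfold XH XK vh
  rw [h2 0 (by norm_num), h2 1 (by norm_num), h2 2 (by norm_num), h2 3 (by norm_num)]

theorem qv_xid2 (w : ℕ → Fin 4 → ℝ) {a k l : ℕ} (ha : a < 84) (hkl : k < l) (hl : l < 6) :
    qv w (xid2 (A6.getD a 0) k l) = XX (vh w (A6.getD a 0)) k l := by
  obtain ⟨h1, h2⟩ := T4_xid2 a ha l hl k hkl
  unfold qv
  rw [if_pos h1]
  unfold XH XX vh
  rw [h2 0 (by norm_num), h2 1 (by norm_num), h2 2 (by norm_num), h2 3 (by norm_num)]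

theorem qv_row (w : ℕ → Fin 4 → ℝ) {b r : ℕ} (hr : r < 36) :
    qv w (126 + (36 * b + r)) = DV (vh w (T5.getD b 0)) (rv (rowP.getD r 0) (rowM.getD r 0)) := by
  unfold qv
  have h1 : ¬ (126 + (36 * b + r) < 126) := by omega
  have h2 : 126 + (36 * b + r) - 126 = 36 * b + r := by omega
  have h3 : (36 * b + r) / 36 = b := by omega
  have h4 : (36 * b + r) % 36 = r := by omega
  rw [if_neg h1, h2, h3, h4]

theorem val_var (w : ℕ → Fin 4 → ℝ) (id : ℕ) (s : Bool) :
    val w (2 * id + bn s) = decide (0 < sb s * qv w id) := by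
  unfold val
  have h0 := bn_lt s
  have h1 : (2 * id + bn s) % 2 = bn s := by omega
  have h2 : (2 * id + bn s) / 2 = id := by omega
  rw [h1, h2, bn_dec]

theorem unit_rows : rowP.getD 36 0 = 1 ∧ rowP.getD 37 0 = 2 ∧ rowP.getD 38 0 = 4 ∧
    rowP.getD 39 0 = 8 ∧ rowP.getD 40 0 = 16 ∧ rowM.getD 36 0 = 0 ∧ rowM.getD 37 0 = 0 ∧
    rowM.getD 38 0 = 0 ∧ rowM.getD 39 0 = 0 ∧ rowM.getD 40 0 = 0 := by decide +kernel

/-- the value of a unit row -/
theorem DV_unit (v : ℕ → Fin 4 → ℝ) {r : ℕ} (h1 : 36 ≤ r) (h2 : r < 41) :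
    DV v (rv (rowP.getD r 0) (rowM.getD r 0)) = sb (tb r 0) * XK v (r - 36) := by
  obtain ⟨p0, p1, p2, p3, p4, m0, m1, m2, m3, m4⟩ := unit_rows
  have hd : ∀ P M : ℕ, ∀ a b c d e : ℝ, rv P M 0 = a → rv P M 1 = b → rv P M 2 = c →
      rv P M 3 = d → rv P M 4 = e → DV v (rv P M) =
        a * XK v 0 - b * XK v 1 + c * XK v 2 - d * XK v 3 + e * XK v 4 := by
    intro P M a b c d e ha hb hc hd he
    unfold DV
    rw [ha, hb, hc, hd, he]
  have tbt : ∀ n k : ℕ, (n / 2 ^ k) % 2 = 1 → tb n k = true := by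
    intro n k h
    unfold tb
    have : Nat.mod (Nat.div n (Nat.pow 2 k)) 2 = 1 := h
    rw [this]; rfl
  have tbf : ∀ n k : ℕ, (n / 2 ^ k) % 2 = 0 → tb n k = false := by
    intro n k h
    unfold tb
    have : Nat.mod (Nat.div n (Nat.pow 2 k)) 2 = 0 := h
    rw [this]; rfl
  have r1 : ∀ P M k : ℕ, (P / 2 ^ k) % 2 = 1 → (M / 2 ^ k) % 2 = 0 → rv P M k = 1 := by
    intro P M k h h'
    unfold rv
    rw [tbt _ _ h, tbf _ _ h']; simp
  have r0 : ∀ P M k : ℕ, (P / 2 ^ k) % 2 = 0 → (M / 2 ^ k) % 2 = 0 → rv P M k = 0 := by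
    intro P M k h h'
    unfold rv
    rw [tbf _ _ h, tbf _ _ h']; simp
  interval_cases r
  · rw [p0, m0, hd 1 0 1 0 0 0 0 (r1 _ _ _ (by norm_num) (by norm_num))
      (r0 _ _ _ (by norm_num) (by norm_num)) (r0 _ _ _ (by norm_num) (by norm_num))
      (r0 _ _ _ (by norm_num) (by norm_num)) (r0 _ _ _ (by norm_num) (by norm_num)),
      tbf 36 0 (by norm_num)]
    simp [sb]
  · rw [p1, m1, hd 2 0 0 1 0 0 0 (r0 _ _ _ (by norm_num) (by norm_num))
      (r1 _ _ _ (by norm_num) (by norm_num)) (r0 _ _ _ (by norm_num) (by norm_num))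
      (r0 _ _ _ (by norm_num) (by norm_num)) (r0 _ _ _ (by norm_num) (by norm_num)),
      tbt 37 0 (by norm_num)]
    simp [sb]
  · rw [p2, m2, hd 4 0 0 0 1 0 0 (r0 _ _ _ (by norm_num) (by norm_num))
      (r0 _ _ _ (by norm_num) (by norm_num)) (r1 _ _ _ (by norm_num) (by norm_num))
      (r0 _ _ _ (by norm_num) (by norm_num)) (r0 _ _ _ (by norm_num) (by norm_num)),
      tbf 38 0 (by norm_num)]
    simp [sb]
  · rw [p3, m3, hd 8 0 0 0 0 1 0 (r0 _ _ _ (by norm_num) (by norm_num))
      (r0 _ _ _ (by norm_num) (by norm_num)) (r0 _ _ _ (by norm_num) (by norm_num))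
      (r1 _ _ _ (by norm_num) (by norm_num)) (r0 _ _ _ (by norm_num) (by norm_num)),
      tbt 39 0 (by norm_num)]
    simp [sb]
  · rw [p4, m4, hd 16 0 0 0 0 0 1 (r0 _ _ _ (by norm_num) (by norm_num))
      (r0 _ _ _ (by norm_num) (by norm_num)) (r0 _ _ _ (by norm_num) (by norm_num))
      (r0 _ _ _ (by norm_num) (by norm_num)) (r1 _ _ _ (by norm_num) (by norm_num)),
      tbf 40 0 (by norm_num)]
    simp [sb]

/-- the meaning of the variables of a 5-subset -/
theorem val_key (w : ℕ → Fin 4 → ℝ) {b r : ℕ} (hb : b < 126) (hr : r < 41) (s : Bool) :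
    val w (key b r s) =
      decide (0 < sb s * DV (vh w (T5.getD b 0)) (rv (rowP.getD r 0) (rowM.getD r 0))) := by
  unfold key
  cases h : Nat.blt r 36 with
  | true =>
    rw [cond_true, val_var, qv_row w (blt_lt h)]
  | false =>
    have h1 : 36 ≤ r := by
      by_contra hc
      rw [lt_blt (not_le.1 hc)] at h
      cases h
    rw [cond_false, val_var, qv_xid w hb (by omega), DV_unit _ h1 hr, sb_xor, mul_assoc]

/-- the meaning of the variables of a 4-subset of a 6-subset -/
theorem val_xkey (w : ℕ → Fin 4 → ℝ) {a k l : ℕ} (ha : a < 84) (hkl : k < l) (hl : l < 6)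
    (s : Bool) : val w (xkey a k l s) = decide (0 < sb s * XX (vh w (A6.getD a 0)) k l) := by
  unfold xkey
  rw [val_var, qv_xid2 w ha hkl hl]

end SY3
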