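import Pool.Agent.SY3.Lit

/-!
# Soundness of the clause families
-/

set_option autoImplicit false

namespace SY3

open BS9 N8S

theorem inj5 : ∀ b < 126, ∀ i < 5, ∀ j < 5, i ≠ j →
    dh (T5.getD b 0) i ≠ dh (T5.getD b 0) j := by decide +kernel

theorem lt7 : ∀ b < 21, ∀ k < 5, dh (T5.getD b 0) k < 7 := by decide +kernel

theorem lt9 : ∀ b < 126, ∀ k < 5, dh (T5.getD b 0) k < 9 := by decide +kernel

/-- (E) -/
theorem sat1 (w : ℕ → Fin 4 → ℝ) (x : ℕ) : Sat w (g1 x) := by
  by_contra hcon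
  unfold Sat g1 at hcon
  push Not at hcon
  have h1 := hcon _ (by simp : (2 * x, false) ∈ _)
  have h2 := hcon _ (by simp : (2 * x + 1, false) ∈ _)
  simp only at h1 h2
  have e1 : 2 * x = 2 * x + bn false := rfl
  have e2 : 2 * x + 1 = 2 * x + bn true := rfl
  rw [e1, val_var] at h1
  rw [e2, val_var] at h2
  have h3 := dec_false h1
  have h4 := dec_false h2
  rw [sb_false] at h3
  rw [sb_true] at h4
  linarith

/-- (D) -/
theorem sat2 {n m : ℕ} {w : ℕ → Fin 4 → ℝ} (h : Hyp n w)
    (hm : ∀ b < m, ∀ k < 5, dh (T5.getD b 0) k < n) (hmm : m ≤ 126) {b i j : ℕ} (hb : b < m)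
    (hij : i < j) (hj : j < 5) : Sat w (g2 b i j) := by
  by_contra hcon
  unfold Sat g2 at hcon
  push Not at hcon
  have hb' : b < 126 := by omega
  have a1 := wl_fail hb' (by omega) (hcon (wl b (36 + i) false false) (by simp))
  have a2 := wl_fail hb' (by omega) (hcon (wl b (36 + i) false true) (by simp))
  have a3 := wl_fail hb' (by omega) (hcon (wl b (36 + j) false false) (by simp))
  have a4 := wl_fail hb' (by omega) (hcon (wl b (36 + j) false true) (by simp))
  rw [sb_false] at a1 a3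
  rw [sb_true] at a2 a4
  have z1 : Q w b (36 + i) false = 0 := by linarith
  have z2 : Q w b (36 + j) false = 0 := by linarith
  rw [Q_unit w (by omega)] at z1 z2
  have hsb : ∀ t : Bool, sb t ≠ 0 := by intro t; cases t <;> simp [sb]
  have y1 := (mul_eq_zero.1 z1).resolve_left (hsb _)
  have y2 := (mul_eq_zero.1 z2).resolve_left (hsb _)
  set s : Fin 5 → ℕ := fun k => dh (T5.getD b 0) k with hs
  have hv : ∀ k < 5, (fun k => w (s (Fin.ofNat 5 k))) k = vh w (T5.getD b 0) k := by
    intro k hk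
    simp only [hs, vh, Fin.val_ofNat, Nat.mod_eq_of_lt hk]
  have hX : ∀ k < 5, XK (fun k => w (s (Fin.ofNat 5 k))) k = XK (vh w (T5.getD b 0)) k := by
    intro k hk
    unfold XK
    rw [hv _ (skip_lt (by norm_num)), hv _ (skip_lt (by norm_num)), hv _ (skip_lt (by norm_num)),
      hv _ (skip_lt (by norm_num))]
  refine h.nz s ?_ (fun k => hm b hb k k.2) ⟨i, by omega⟩ ⟨j, hj⟩ hij ?_ ?_
  · intro x y hxy
    by_contra hne
    exact inj5 b hb' x x.2 y y.2 (fun h => hne (Fin.ext h)) hxy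
  · show XK (fun k => w (s (Fin.ofNat 5 k))) i = 0
    rw [hX i (by omega)]; exact y1
  · show XK (fun k => w (s (Fin.ofNat 5 k))) j = 0
    rw [hX j hj]; exact y2

end SY3
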